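import Pool.Agent.W524.RY.Abs
import Pool.Agent.W189.LC.Refine

/-! The abstract theorem for Mittag-Leffler means in an arbitrary direction, up to `O(1/T)`. -/

set_option autoImplicit false

namespace Pool.Agent.U745.LT

open Complex MeasureTheory Filter Topology Set
open scoped Interval
open Pool.Agent.W189.ML
open Pool.Agent.W524.RY (loc_const)
open Pool.Agent.W189.LC (V_one norm_rays_le')

/-- a branch of the logarithm near a real interval, with a Lipschitz condition at `0` -/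
theorem branch_lip {Q : ℂ → ℂ}
    (hQ : ∀ x ∈ Icc (0 : ℝ) 3, AnalyticAt ℂ Q (x : ℂ)) (hQ0 : ∀ x ∈ Icc (0 : ℝ) 3, Q (x : ℂ) ≠ 0) :
    ∃ δ > 0, ∃ q : ℂ → ℂ, ∃ M : ℝ, 0 ≤ M ∧
      (∀ w : ℂ, 0 ≤ w.re → w.re ≤ 3 → |w.im| ≤ δ →
        ‖q w - q 0‖ ≤ M * ‖w‖ ∧ DifferentiableAt ℂ q w ∧ exp (q w) = Q w) ∧
      ∀ᶠ w in 𝓝 (3 : ℂ), exp (q w) = Q w := by
  set Kc : Set ℂ := (fun x : ℝ => (x : ℂ)) '' Icc 0 3 with hKc
  have hKcc : IsCompact Kc := isCompact_Icc.image (by fun_prop)
  set U : Set ℂ := {w | AnalyticAt ℂ Q w ∧ Q w ≠ 0} with hU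
  have hUo : IsOpen U := by
    rw [isOpen_iff_mem_nhds]
    rintro w ⟨hw1, hw2⟩
    filter_upwards [hw1.eventually_analyticAt,
      hw1.continuousAt.eventually_ne hw2] with v h3 h4
    exact ⟨h3, h4⟩
  have hKU : Kc ⊆ U := by
    rintro _ ⟨x, hx, rfl⟩
    exact ⟨hQ x hx, hQ0 x hx⟩
  obtain ⟨δ₂, hδ₂, hsub⟩ := hKcc.exists_cthickening_subset_open hUo hKU
  have hKconv : Convex ℝ Kc := by
    have h : IsLinearMap ℝ (fun x : ℝ => (x : ℂ)) :=
      ⟨fun x y => Complex.ofReal_add x y, fun c x => by simp⟩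
    exact (convex_Icc 0 3).is_linear_image h
  have hne : Kc.Nonempty := ⟨_, 3, ⟨by norm_num, le_rfl⟩, rfl⟩
  have hto : IsOpen (Metric.thickening δ₂ Kc) := Metric.isOpen_thickening
  have htc : Convex ℝ (Metric.thickening δ₂ Kc) := hKconv.thickening δ₂
  have htn : (Metric.thickening δ₂ Kc).Nonempty :=
    hne.mono (Metric.self_subset_thickening hδ₂ _)
  have hts : Metric.thickening δ₂ Kc ⊆ U := (Metric.thickening_subset_cthickening _ _).trans hsub
  obtain ⟨q, hq1, hq2⟩ := Pool.Agent.W334.BSD.exists_log hto htc htn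
    (Φ := Q) (fun w hw => (hts hw).1.differentiableAt.differentiableWithinAt)
    (fun w hw => (hts hw).2)
  have hcc : IsCompact (Metric.cthickening (δ₂ / 2) Kc) := hKcc.cthickening
  have hcs : Metric.cthickening (δ₂ / 2) Kc ⊆ Metric.thickening δ₂ Kc :=
    Metric.cthickening_subset_thickening' hδ₂ (by linarith) _
  have hd : ∀ w ∈ Metric.thickening δ₂ Kc, DifferentiableAt ℂ q w := fun w hw =>
    hq1.differentiableAt (hto.mem_nhds hw)
  have h0m : (0 : ℂ) ∈ Metric.thickening δ₂ Kc :=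
    Metric.self_subset_thickening hδ₂ _ ⟨0, ⟨le_rfl, by norm_num⟩, by simp⟩
  have hlc : ContinuousOn (dslope q 0) (Metric.cthickening (δ₂ / 2) Kc) := by
    intro w hw
    by_cases h : w = 0
    · rw [h]
      exact (continuousAt_dslope_same.2 (hd 0 h0m)).continuousWithinAt
    · exact ((continuousAt_dslope_of_ne h).2 (hd w (hcs hw)).continuousAt).continuousWithinAt
  obtain ⟨M, hM⟩ := hcc.exists_bound_of_continuousOn hlc
  have hmem : ∀ w : ℂ, 0 ≤ w.re → w.re ≤ 3 → |w.im| ≤ δ₂ / 2 →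
      w ∈ Metric.cthickening (δ₂ / 2) Kc := by
    intro w h3 h4 h5
    refine Metric.mem_cthickening_of_dist_le w (w.re : ℂ) (δ₂ / 2) Kc ⟨w.re, ⟨h3, h4⟩, rfl⟩ ?_
    rw [Complex.dist_eq]
    have : w - (w.re : ℂ) = (w.im : ℂ) * I := by
      apply Complex.ext <;> simp
    rw [this, norm_mul, Complex.norm_I, mul_one, Complex.norm_real, Real.norm_eq_abs]
    exact h5
  refine ⟨δ₂ / 2, by positivity, q, |M|, abs_nonneg _, fun w h3 h4 h5 => ?_, ?_⟩
  · have h6 := hmem w h3 h4 h5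
    refine ⟨?_, hd w (hcs h6), hq2 w (hcs h6)⟩
    have h7 := sub_smul_dslope q 0 w
    rw [← h7, sub_zero, smul_eq_mul, norm_mul, mul_comm]
    exact mul_le_mul_of_nonneg_right ((hM w h6).trans (le_abs_self M)) (norm_nonneg _)
  · have h3 : (3 : ℂ) ∈ Metric.thickening δ₂ Kc :=
      Metric.self_subset_thickening hδ₂ _ ⟨3, ⟨by norm_num, le_rfl⟩, by simp⟩
    filter_upwards [hto.mem_nhds h3] with w hw using hq2 w hw

/-- **Main abstract theorem.** -/
theorem refined_abs {S G Q : ℂ → ℂ} {κ CG CS : ℝ} (hκ : 0 < κ) (m : ℤ)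
    (Gd : ∀ ζ : ℂ, 0 < ζ.re → |ζ.im| ≤ κ * ζ.re → DifferentiableAt ℂ G ζ)
    (Gb : ∀ ζ : ℂ, 0 < ζ.re → |ζ.im| ≤ κ * ζ.re → ‖G ζ‖ ≤ CG * ‖ζ‖)
    (Sc : ContinuousOn S {ζ | 3 ≤ ζ.re ∧ |ζ.im| ≤ κ}) (Sb : ∀ ζ : ℂ, 3 ≤ ζ.re → |ζ.im| ≤ κ → ‖S ζ‖ ≤ CS)
    (Sc3 : ContinuousAt S 3)
    (hQ : ∀ x ∈ Icc (0 : ℝ) 3, AnalyticAt ℂ Q (x : ℂ)) (hQ0 : ∀ x ∈ Icc (0 : ℝ) 3, Q (x : ℂ) ≠ 0)
    (hΦ : ∀ᶠ w in 𝓝 (3 : ℂ), exp (G w - S w) = w ^ m * Q w) :
    ∃ q0 : ℂ, exp q0 = Q 0 ∧ ∃ C T₀ : ℝ, 0 ≤ C ∧ 1 ≤ T₀ ∧ ∀ T ≥ T₀,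
      ‖J (3 * T) (fun z => S (z / T)) - (m * (Real.log T - J 1 log) - q0)‖ ≤ C / T := by
  obtain ⟨δ₂, hδ₂, q1, M, hM0, hq1, hq1'⟩ := branch_lip hQ hQ0
  -- the right branch
  have hs3 : (3 : ℂ) ∈ slitPlane := by
    left
    simp
  have hG3 : DifferentiableAt ℂ G 3 := Gd 3 (by simp) (by simp; positivity)
  set d : ℂ → ℂ := fun w => G w - S w - m * log w - q1 w with hd
  have hdc : ContinuousAt d 3 := by
    refine ContinuousAt.sub (ContinuousAt.sub (ContinuousAt.sub hG3.continuousAt Sc3) ?_) ?_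
    · exact continuousAt_const.mul (ContinuousAt.clog (by fun_prop) hs3)
    · exact (hq1 3 (by simp) (by simp) (by simp; positivity)).2.1.continuousAt
  have hexp : ∀ᶠ w in 𝓝 (3 : ℂ), exp (d w) = 1 := by
    have e1 : ∀ᶠ w in 𝓝 (3 : ℂ), w ∈ slitPlane := isOpen_slitPlane.mem_nhds hs3
    filter_upwards [hΦ, e1, hq1'] with w h3 h4 h5
    have h6 := slitPlane_ne_zero h4
    have h7 : Q w ≠ 0 := by rw [← h5]; exact Complex.exp_ne_zero _
    rw [hd]
    simp only
    rw [Complex.exp_sub, Complex.exp_sub, h3, Complex.exp_int_mul, Complex.exp_log h6, h5]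
    have : w ^ m ≠ 0 := zpow_ne_zero _ h6
    field_simp
  set c0 : ℂ := d 3 with hc0
  have hloc := loc_const hdc hexp
  have hc01 : exp c0 = 1 := hexp.self_of_nhds
  set q : ℂ → ℂ := fun w => q1 w + c0 with hq
  have hqd : ∀ w : ℂ, 0 ≤ w.re → w.re ≤ 3 → |w.im| ≤ δ₂ → DifferentiableAt ℂ q w :=
    fun w h3 h4 h5 => (hq1 w h3 h4 h5).2.1.add_const _
  have hqM : ∀ w : ℂ, 0 ≤ w.re → w.re ≤ 3 → |w.im| ≤ δ₂ → ‖q w - q 0‖ ≤ M * ‖w‖ := by
    intro w h3 h4 h5
    have e : q w - q 0 = q1 w - q1 0 := by rw [hq]; ring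
    rw [e]
    exact (hq1 w h3 h4 h5).1
  obtain ⟨δ, hδ, hbr⟩ : ∃ δ > 0, ∀ w : ℂ, dist w 3 < δ →
      G w - S w = m * log w + q w := by
    obtain ⟨δ, hδ, h3⟩ := Metric.eventually_nhds_iff.1 hloc
    refine ⟨δ, hδ, fun w hw => ?_⟩
    have h4 := h3 hw
    rw [← hc0, hd] at h4
    simp only at h4
    rw [hq]
    linear_combination h4
  set a0 : ℝ := Real.pi / κ + 1 with ha0
  have hpi := Real.pi_pos
  have hpi4 := Real.pi_lt_four
  have ha0' : 1 ≤ a0 := by
    have : 0 < Real.pi / κ := by positivity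
    linarith
  have ha00 : 0 ≤ a0 := by linarith
  refine ⟨q 0, ?_, Real.exp (Real.exp a0) * (|CG| * (a0 + 4)) + |CG| * 5 + |(m : ℝ)| * 8 +
      Real.exp (Real.exp 1) * (M * 5) + M * 5 + (5 * |CG| + |CS|),
    Real.pi / δ + Real.pi / δ₂ + Real.pi / κ + 1 + a0, by positivity, ?_, fun T hT => ?_⟩
  · rw [hq]
    simp only
    rw [Complex.exp_add, hc01, mul_one]
    exact (hq1 0 (by simp) (by simp) (by simp; positivity)).2.2
  · have hq1 : 0 < Real.pi / δ := by positivity
    have hq2 : 0 < Real.pi / δ₂ := by positivity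
    have hq3 : 0 < Real.pi / κ := by positivity
    linarith
  have hq1 : 0 < Real.pi / δ := by positivity
  have hq2 : 0 < Real.pi / δ₂ := by positivity
  have hq3 : 0 < Real.pi / κ := by positivity
  have hT1 : 1 ≤ T := by linarith
  have hT0 : 0 < T := by linarith
  have hTδ : Real.pi / T < δ := by
    rw [div_lt_iff₀ hT0, mul_comm, ← div_lt_iff₀ hδ]; linarith
  have hTδ₂ : Real.pi / T ≤ δ₂ := by
    rw [div_le_iff₀ hT0, mul_comm, ← div_le_iff₀ hδ₂]; linarith
  have hTκ : Real.pi / T ≤ κ := by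
    rw [div_le_iff₀ hT0, mul_comm, ← div_le_iff₀ hκ]; linarith
  set b : ℝ := 3 * T with hb
  have hb0 : 0 ≤ b := by positivity
  have hb1 : 1 ≤ b := by linarith
  have hb2 : 2 * T ≤ b := by linarith
  have hab0 : a0 ≤ b := by linarith
  have hTc : (T : ℂ) ≠ 0 := by exact_mod_cast hT0.ne'
  have hdre : ∀ z : ℂ, (z / T).re = z.re / T := fun z => by simp
  have hdim : ∀ z : ℂ, (z / T).im = z.im / T := fun z => by simp
  have hexpb : Real.exp (-b) ≤ 1 / T := by
    rw [Real.exp_neg, le_div_iff₀ hT0, inv_mul_le_iff₀ (Real.exp_pos _), mul_one]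
    have := Real.add_one_le_exp b
    linarith
  have hnz : ∀ z : ℂ, 0 ≤ z.re → |z.im| ≤ Real.pi → ‖z / T‖ ≤ (z.re + 4) / T := by
    intro z h1 h2
    rw [norm_div, Complex.norm_real, Real.norm_eq_abs, abs_of_pos hT0]
    refine div_le_div_of_nonneg_right ?_ hT0.le
    have h4 := Complex.norm_le_abs_re_add_abs_im z
    rw [abs_of_nonneg h1] at h4
    linarith
  -- sector bound on the half strip
  have hreg : ∀ z ∈ HS a0, 0 < (z / T).re ∧ |(z / T).im| ≤ κ * (z / T).re := by
    intro z hz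
    rw [hdre, hdim, abs_div, abs_of_pos hT0, ← mul_div_assoc]
    have h3 := hz.1
    refine ⟨div_pos (by linarith) hT0, div_le_div_of_nonneg_right (hz.2.trans ?_) hT0.le⟩
    have h4 : Real.pi / κ ≤ z.re := by linarith
    rwa [div_le_iff₀ hκ, mul_comm] at h4
  have hsec : ∀ z ∈ HS a0, ‖G (z / T)‖ ≤ |CG| * 4 / T + |CG| / T * z.re := by
    intro z hz
    have h1 := Gb _ (hreg z hz).1 (hreg z hz).2
    have h2 := hnz z (ha00.trans hz.1) hz.2
    calc ‖G (z / T)‖ ≤ CG * ‖z / T‖ := h1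
      _ ≤ |CG| * ‖z / T‖ := mul_le_mul_of_nonneg_right (le_abs_self _) (norm_nonneg _)
      _ ≤ |CG| * ((z.re + 4) / T) := mul_le_mul_of_nonneg_left h2 (abs_nonneg _)
      _ = _ := by ring
  have hGd : ∀ z ∈ HS a0, DifferentiableAt ℂ (fun z : ℂ => G (z / T)) z := fun z hz =>
    DifferentiableAt.comp (g := G) (f := fun z : ℂ => z / T) z (Gd _ (hreg z hz).1 (hreg z hz).2)
      (by fun_prop)
  have hGdiff : DifferentiableOn ℂ (fun z : ℂ => G (z / T)) (HS a0) := fun z hz =>
    (hGd z hz).differentiableWithinAt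
  have admG : Adm a0 (fun z : ℂ => G (z / T)) :=
    ⟨hGdiff.continuousOn, |CG| * 4 / T, |CG| / T, by positivity, by positivity, hsec⟩
  have hre3 : ∀ z ∈ HS b, 3 ≤ (z / T).re ∧ |(z / T).im| ≤ κ := by
    intro z hz
    rw [hdre, hdim, le_div_iff₀ hT0, abs_div, abs_of_pos hT0]
    exact ⟨hz.1, (div_le_div_of_nonneg_right hz.2 hT0.le).trans hTκ⟩
  have hSb : ∀ z ∈ HS b, ‖S (z / T)‖ ≤ |CS| := fun z hz =>
    (Sb _ (hre3 z hz).1 (hre3 z hz).2).trans (le_abs_self CS)
  have admS : Adm b (fun z : ℂ => S (z / T)) := by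
    refine ⟨Sc.comp (by fun_prop) fun z hz => hre3 z hz, |CS|, 0,
      abs_nonneg _, le_rfl, fun z hz => ?_⟩
    have := hSb z hz
    linarith
  -- E2, E3
  have E3 : J b (fun z => G (z / T)) = J a0 (fun z => G (z / T)) :=
    (J_shift' ha00 hab0 admG hGdiff).symm
  have E3' : ‖J a0 (fun z => G (z / T))‖ ≤
      Real.exp (Real.exp a0) * (|CG| * (a0 + 4)) / T + |CG| * 5 / T := by
    unfold J
    refine (norm_add_le _ _).trans (add_le_add ?_ ?_)
    · have h1 : ‖V a0 (fun z => G (z / T))‖ ≤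
          Real.exp (Real.exp a0) * (|CG| * 4 / T + |CG| / T * a0) := by
        refine norm_V_le fun y hy => ?_
        have := hsec ((a0 : ℂ) + y * I) (vert_mem (abs_le.1 hy).1 (abs_le.1 hy).2)
        simpa using this
      refine h1.trans (le_of_eq ?_)
      ring
    · have := norm_rays_le (Φ := fun z => G (z / T)) (A := |CG| * 4 / T) (B := |CG| / T) ha00
        (by positivity) (by positivity) (s := Ioi a0)
        (fun x hx => by have := hsec _ (up_mem (le_of_lt hx)); simpa using this)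
        (fun x hx => by have := hsec _ (down_mem (le_of_lt hx)); simpa using this)
        subset_rfl measurableSet_Ioi
      refine this.trans (le_of_eq ?_)
      ring
  have E2 : J b (fun z => G (z / T) - S (z / T)) =
      J a0 (fun z => G (z / T)) - J b (fun z => S (z / T)) := by
    rw [J_sub hb0 (admG.mono hab0) admS, E3]
  -- E4
  have hellb : ∀ z ∈ HS b, ‖G (z / T) - S (z / T)‖ ≤ (|CG| * 4 + |CS|) + |CG| * z.re := by
    intro z hz
    refine (norm_sub_le _ _).trans ?_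
    have h1 := hsec z (HS_mono hab0 hz)
    have h2 := hSb z hz
    have hzre : 0 ≤ z.re := hb0.trans hz.1
    have h3 : |CG| * 4 / T ≤ |CG| * 4 := div_le_self (by positivity) hT1
    have h4 : |CG| / T * z.re ≤ |CG| * z.re :=
      mul_le_mul_of_nonneg_right (div_le_self (by positivity) hT1) hzre
    linarith
  have admL : Adm b (fun z => G (z / T) - S (z / T)) :=
    ⟨(admG.mono hab0).cont.sub admS.cont, |CG| * 4 + |CS|, |CG|, by positivity, by positivity,
      hellb⟩
  have E4 : ‖∫ x in Ioi b, rho (fun z => G (z / T) - S (z / T)) x‖ ≤ (5 * |CG| + |CS|) / T := by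
    have := norm_rays_le' (Φ := fun z => G (z / T) - S (z / T)) (A := |CG| * 4 + |CS|) (B := |CG|)
      hb0 (by positivity) (by positivity) (s := Ioi b)
      (fun x hx => by have := hellb _ (up_mem (le_of_lt hx)); simpa using this)
      (fun x hx => by have := hellb _ (down_mem (le_of_lt hx)); simpa using this)
      subset_rfl measurableSet_Ioi
    refine this.trans ?_
    calc (|CG| * 4 + |CS| + |CG|) * Real.exp (-b) ≤ (|CG| * 4 + |CS| + |CG|) * (1 / T) := by gcongr
      _ = _ := by ring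
  obtain ⟨admlog, hlogb⟩ := adm_log (b := b) hT1 le_rfl zero_le_one hb2
  simp only [Complex.ofReal_zero, sub_zero] at admlog hlogb
  have E6 : ‖∫ x in Ioi b, rho (fun z => log (z / T)) x‖ ≤ 8 / T := by
    have := norm_rays_le' (Φ := fun z => log (z / T)) (A := 7) (B := 1) hb0 (by norm_num)
      (by norm_num) (s := Ioi b)
      (fun x hx => by have := hlogb _ (up_mem (le_of_lt hx)); simpa using this)
      (fun x hx => by have := hlogb _ (down_mem (le_of_lt hx)); simpa using this)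
      subset_rfl measurableSet_Ioi
    refine this.trans ?_
    rw [div_eq_mul_one_div]
    norm_num
    exact (by simpa using hexpb)
  have E7 := J_log (b := b) hT1 le_rfl zero_le_one hb2
  simp only [Complex.ofReal_zero, sub_zero, zero_mul, grow_zero] at E7
  -- the vertical part of `q`
  have E8 : V b (fun z => G (z / T) - S (z / T)) - m * V b (fun z => log (z / T)) =
      V b (fun z => q (z / T)) := by
    have admm : Adm b (fun z => (m : ℂ) * log (z / T)) := by
      refine ⟨continuousOn_const.mul admlog.cont, |(m : ℝ)| * 7, |(m : ℝ)| * 1, by positivity,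
        by positivity, fun z hz => ?_⟩
      rw [norm_mul, Complex.norm_intCast]
      have := hlogb z hz
      calc |(m : ℝ)| * ‖log (z / T)‖ ≤ |(m : ℝ)| * (7 + 1 * z.re) := by gcongr
        _ = _ := by ring
    rw [← V_const_mul, ← V_sub admL admm]
    refine V_congr fun y hy => ?_
    have h3 : dist (((b : ℂ) + y * I) / T) 3 < δ := by
      rw [Complex.dist_eq]
      have : ((b : ℂ) + y * I) / T - 3 = ((y / T : ℝ) : ℂ) * I := by
        rw [hb]
        push_cast
        field_simp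
        ring
      rw [this, norm_mul, Complex.norm_I, mul_one, Complex.norm_real, Real.norm_eq_abs, abs_div,
        abs_of_pos hT0]
      exact (div_le_div_of_nonneg_right hy hT0.le).trans_lt hTδ
    rw [hbr _ h3]
    ring
  -- shift
  have hsubr : ∀ z ∈ [[1, b]] ×ℂ [[-Real.pi, Real.pi]],
      0 ≤ (z / T).re ∧ (z / T).re ≤ 3 ∧ |(z / T).im| ≤ δ₂ := by
    intro z hz
    rw [mem_reProdIm, uIcc_of_le hb1, uIcc_of_le (by linarith)] at hz
    rw [hdre, hdim]
    refine ⟨?_, ?_, ?_⟩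
    · have := hz.1.1
      positivity
    · rw [div_le_iff₀ hT0]; exact hz.1.2
    · rw [abs_div, abs_of_pos hT0]
      exact (div_le_div_of_nonneg_right (abs_le.2 hz.2) hT0.le).trans hTδ₂
  set R : ℂ → ℂ := fun z => q (z / T) - q 0 with hR
  have hRd : DifferentiableOn ℂ R ([[1, b]] ×ℂ [[-Real.pi, Real.pi]]) := by
    intro z hz
    obtain ⟨h3, h4, h5⟩ := hsubr z hz
    have h6 : DifferentiableAt ℂ (fun z : ℂ => q (z / T)) z :=
      DifferentiableAt.comp (g := q) (f := fun z : ℂ => z / T) z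
        (hqd _ h3 h4 h5) (by fun_prop)
    exact (h6.sub_const _).differentiableWithinAt
  have hRb : ∀ z ∈ [[1, b]] ×ℂ [[-Real.pi, Real.pi]], ‖R z‖ ≤ M * ((z.re + 4) / T) := by
    intro z hz
    obtain ⟨h3, h4, h5⟩ := hsubr z hz
    refine (hqM _ h3 h4 h5).trans ?_
    rw [mem_reProdIm, uIcc_of_le hb1, uIcc_of_le (by linarith)] at hz
    exact mul_le_mul_of_nonneg_left (hnz z (by linarith [hz.1.1]) (abs_le.2 hz.2)) hM0
  have E9 : V b R = V 1 R + ∫ x in (1 : ℝ)..b, rho R x := V_shift hRd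
  have E9' : V b (fun z => q (z / T)) = V b R + q 0 := by
    have hc : ∀ y : ℝ, |y| ≤ Real.pi → ((b : ℂ) + y * I) ∈ [[1, b]] ×ℂ [[-Real.pi, Real.pi]] := by
      intro y hy
      rw [mem_reProdIm, uIcc_of_le hb1, uIcc_of_le (by linarith)]
      refine ⟨?_, ?_⟩
      · simpa using hb1
      · simpa using abs_le.1 hy
    have hpp : -Real.pi ≤ Real.pi := by linarith
    have i1 : IntervalIntegrable (fun y : ℝ => K (b + y * I) * R (b + y * I)) volume
        (-Real.pi) Real.pi := by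
      refine ContinuousOn.intervalIntegrable ?_
      refine ContinuousOn.mul (continuous_K.comp (by fun_prop)).continuousOn ?_
      refine hRd.continuousOn.comp (by fun_prop) ?_
      intro y hy
      rw [uIcc_of_le hpp] at hy
      exact hc y (abs_le.2 hy)
    have i2 : IntervalIntegrable (fun y : ℝ => K (b + y * I) * q 0) volume
        (-Real.pi) Real.pi := by
      refine Continuous.intervalIntegrable ?_ _ _
      exact (continuous_K.comp (by fun_prop)).mul continuous_const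
    have h1 := V_one b (q 0)
    rw [← h1]
    unfold V
    rw [← mul_add, ← intervalIntegral.integral_add i1 i2]
    congr 1
    refine intervalIntegral.integral_congr fun y _ => ?_
    simp only [hR]
    ring
  have E10 : ‖V 1 R‖ ≤ Real.exp (Real.exp 1) * (M * (5 / T)) := by
    refine norm_V_le fun y hy => ?_
    have := hRb ((1 : ℝ) + y * I) (by
      rw [mem_reProdIm, uIcc_of_le hb1, uIcc_of_le (by linarith)]
      refine ⟨?_, ?_⟩
      · simpa using hb1
      · simpa using abs_le.1 hy)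
    have h2 : (((1 : ℝ) : ℂ) + y * I).re + 4 = 5 := by simp; norm_num
    rw [h2] at this
    exact this
  have E11 : ‖∫ x in (1 : ℝ)..b, rho R x‖ ≤ M * (5 / T) := by
    rw [intervalIntegral.integral_of_le hb1]
    have hu : ∀ x ∈ Ioc (1 : ℝ) b, ‖R (x + Real.pi * I)‖ ≤ M * 4 / T + M / T * x := by
      intro x hx
      have := hRb (x + Real.pi * I) (by
        rw [mem_reProdIm, uIcc_of_le hb1, uIcc_of_le (by linarith)]
        refine ⟨?_, ?_⟩
        · simpa using Ioc_subset_Icc_self hx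
        · simp; linarith)
      refine this.trans (le_of_eq ?_)
      simp
      ring
    have hd : ∀ x ∈ Ioc (1 : ℝ) b, ‖R (x - Real.pi * I)‖ ≤ M * 4 / T + M / T * x := by
      intro x hx
      have := hRb (x - Real.pi * I) (by
        rw [mem_reProdIm, uIcc_of_le hb1, uIcc_of_le (by linarith)]
        refine ⟨?_, ?_⟩
        · simpa using Ioc_subset_Icc_self hx
        · simp; linarith)
      refine this.trans (le_of_eq ?_)
      simp
      ring
    have := norm_rays_le (Φ := R) zero_le_one (by positivity) (by positivity)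
      (s := Ioc (1 : ℝ) b) hu hd Ioc_subset_Ioi_self measurableSet_Ioc
    refine this.trans (le_of_eq ?_)
    ring
  -- conclusion
  have E12 : J b (fun z => S (z / T)) - (m * (Real.log T - J 1 log) - q 0) =
      J a0 (fun z => G (z / T)) + m * (∫ x in Ioi b, rho (fun z => log (z / T)) x) -
      V 1 R - (∫ x in (1 : ℝ)..b, rho R x) -
      ∫ x in Ioi b, rho (fun z => G (z / T) - S (z / T)) x := by
    rw [E9', E9] at E8
    have E2' : J b (fun z => S (z / T)) = J a0 (fun z => G (z / T)) -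
      (V b (fun z => G (z / T) - S (z / T)) + ∫ x in Ioi b, rho (fun z => G (z / T) - S (z / T)) x) := by
      have : J b (fun z => G (z / T) - S (z / T)) = V b (fun z => G (z / T) - S (z / T)) +
        ∫ x in Ioi b, rho (fun z => G (z / T) - S (z / T)) x := rfl
      rw [← this, E2]
      ring
    have E7' : V b (fun z => log (z / T)) + ∫ x in Ioi b, rho (fun z => log (z / T)) x =
      J 1 log - Real.log T := by
      have : J b (fun z => log (z / T)) = V b (fun z => log (z / T)) +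
        ∫ x in Ioi b, rho (fun z => log (z / T)) x := rfl
      rw [← this, E7]
    linear_combination E2' - m * E7' - E8
  rw [E12]
  have h1 : (Real.exp (Real.exp a0) * (|CG| * (a0 + 4)) + |CG| * 5 + |(m : ℝ)| * 8 +
      Real.exp (Real.exp 1) * (M * 5) + M * 5 + (5 * |CG| + |CS|)) / T =
      (Real.exp (Real.exp a0) * (|CG| * (a0 + 4)) / T + |CG| * 5 / T) + |(m : ℝ)| * (8 / T) +
      Real.exp (Real.exp 1) * (M * (5 / T)) + M * (5 / T) + (5 * |CG| + |CS|) / T := by
    ring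
  rw [h1]
  refine (norm_sub_le _ _).trans (add_le_add ?_ E4)
  refine (norm_sub_le _ _).trans (add_le_add ?_ E11)
  refine (norm_sub_le _ _).trans (add_le_add ?_ E10)
  refine (norm_add_le _ _).trans (add_le_add E3' ?_)
  rw [norm_mul, Complex.norm_intCast]
  gcongr

end Pool.Agent.U745.LT
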