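import Pool.Agent.R409.RA.Loc
import Pool.Agent.U745.LT.Abs
import Pool.Agent.W189.LC.Kappa

/-!
# The correction function of order three of an Euler product at the central point
-/

set_option autoImplicit false

namespace Pool.Agent.U745.LT

open NumberField IsDedekindDomain Filter Topology MeasureTheory
open Pool.Agent.TH339.MP (nm two_le_nm)
open Pool.Agent.W524.RY (dir dir_re dir_im dir_ne dir_mul_re dir_mul_real_re inv_gamma_le J_cexp)
open Pool.Agent.W189.ML (HS J J_hasSum J_const_mul Adm J_sub)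
open Pool.Agent.R409.RA

/-- one term of the correction -/
noncomputable def dd (a y : ℂ) : ℂ :=
  (-Complex.log (1 - a * y) + y * Complex.log (1 - a)) +
    1 / 2 * Complex.log (1 - a ^ 2) * (y ^ 2 - y)

theorem dd_bound {a y : ℂ} (ha : ‖a‖ ≤ 3 / 4) (hy : ‖y‖ ≤ 1) :
    ‖dd a y‖ ≤ 6 * ‖a‖ ^ 3 * ‖1 - y‖ := by
  have hna := norm_nonneg a
  have hny := norm_nonneg y
  have hay : ‖a * y‖ < 1 := by
    rw [norm_mul]
    nlinarith [norm_nonneg a, norm_nonneg y]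
  have h1 := Complex.hasSum_taylorSeries_neg_log hay
  have h2 := (Complex.hasSum_taylorSeries_neg_log (z := a) (by linarith)).mul_left y
  have h3 := h1.sub h2
  rw [← hasSum_nat_add_iff' 3] at h3
  simp only [Finset.sum_range_succ, Finset.sum_range_zero, pow_zero, Nat.cast_zero, div_zero,
    mul_zero, sub_zero, add_zero, pow_one, Nat.cast_one, div_one, Nat.cast_ofNat, zero_add] at h3
  set T1 : ℂ := -Complex.log (1 - a * y) - y * -Complex.log (1 - a) -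
    (a * y - y * a + ((a * y) ^ 2 / 2 - y * (a ^ 2 / 2))) with hT1
  have hb1 : ‖T1‖ ≤ 4 * ‖a‖ ^ 3 * ‖1 - y‖ := by
    have hg : HasSum (fun n : ℕ => ‖a‖ ^ 3 * ‖1 - y‖ * ‖a‖ ^ n)
        (‖a‖ ^ 3 * ‖1 - y‖ * (1 - ‖a‖)⁻¹) :=
      (hasSum_geometric_of_lt_one (norm_nonneg a) (by linarith)).mul_left _
    have h4 := h3.norm_le_of_bounded hg (fun n => ?_)
    · refine h4.trans ?_
      have h5 : (1 - ‖a‖)⁻¹ ≤ 4 := by
        rw [inv_le_comm₀ (by linarith) (by norm_num)]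
        linarith
      calc ‖a‖ ^ 3 * ‖1 - y‖ * (1 - ‖a‖)⁻¹ ≤ ‖a‖ ^ 3 * ‖1 - y‖ * 4 :=
            mul_le_mul_of_nonneg_left h5 (by positivity)
        _ = _ := by ring
    · have e2 : (a * y) ^ (n + 3) / ((n + 3 : ℕ) : ℂ) - y * (a ^ (n + 3) / ((n + 3 : ℕ) : ℂ)) =
          a ^ (n + 3) * (y * (y ^ (n + 2) - 1)) / ((n + 3 : ℕ) : ℂ) := by ring
      rw [e2, norm_div, norm_mul, norm_mul, norm_pow, Complex.norm_natCast]
      have h5 := pow_sub_one_le hy (n + 2)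
      have hn : (0 : ℝ) < ((n + 3 : ℕ) : ℝ) := by positivity
      rw [div_le_iff₀ hn]
      have h6 : ((n + 2 : ℕ) : ℝ) ≤ ((n + 3 : ℕ) : ℝ) := by exact_mod_cast Nat.le_succ _
      have h7 : ‖y‖ * ‖y ^ (n + 2) - 1‖ ≤ ((n + 3 : ℕ) : ℝ) * ‖1 - y‖ := by
        calc ‖y‖ * ‖y ^ (n + 2) - 1‖ ≤ 1 * ‖y ^ (n + 2) - 1‖ := by gcongr
          _ = ‖y ^ (n + 2) - 1‖ := one_mul _
          _ ≤ ((n + 2 : ℕ) : ℝ) * ‖1 - y‖ := h5
          _ ≤ _ := by gcongr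
      calc ‖a‖ ^ (n + 3) * (‖y‖ * ‖y ^ (n + 2) - 1‖)
          ≤ ‖a‖ ^ (n + 3) * (((n + 3 : ℕ) : ℝ) * ‖1 - y‖) := by gcongr
        _ = _ := by ring
  have ha2 : ‖-(a ^ 2)‖ ≤ 9 / 16 := by
    rw [norm_neg, norm_pow]
    nlinarith
  have hlog : ‖Complex.log (1 + -(a ^ 2)) - -(a ^ 2)‖ ≤ 2 * ‖a‖ ^ 3 := by
    have h4 := Complex.norm_log_one_add_sub_self_le (z := -(a ^ 2)) (by linarith)
    refine h4.trans ?_
    have h5 : (1 - ‖-(a ^ 2)‖)⁻¹ ≤ 16 / 7 := by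
      rw [inv_le_comm₀ (by linarith) (by norm_num)]
      linarith
    have e : ‖-(a ^ 2)‖ ^ 2 = ‖a‖ ^ 3 * ‖a‖ := by
      rw [norm_neg, norm_pow]
      ring
    calc ‖-(a ^ 2)‖ ^ 2 * (1 - ‖-(a ^ 2)‖)⁻¹ / 2 ≤ ‖-(a ^ 2)‖ ^ 2 * (16 / 7) / 2 := by gcongr
      _ = ‖a‖ ^ 3 * ‖a‖ * (16 / 7) / 2 := by rw [e]
      _ ≤ ‖a‖ ^ 3 * (3 / 4) * (16 / 7) / 2 := by gcongr
      _ ≤ _ := by nlinarith [pow_nonneg hna 3]
  have hsplit : dd a y = T1 + 1 / 2 * (Complex.log (1 + -(a ^ 2)) - -(a ^ 2)) * (y * (y - 1)) := by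
    unfold dd
    rw [hT1, ← sub_eq_add_neg]
    ring
  rw [hsplit]
  refine (norm_add_le _ _).trans ?_
  have hb2 : ‖1 / 2 * (Complex.log (1 + -(a ^ 2)) - -(a ^ 2)) * (y * (y - 1))‖ ≤
      ‖a‖ ^ 3 * ‖1 - y‖ := by
    rw [norm_mul, norm_mul, norm_mul, norm_sub_rev y 1]
    have h6 : ‖(1 / 2 : ℂ)‖ = 1 / 2 := by norm_num
    rw [h6]
    have h7 : ‖y‖ * ‖1 - y‖ ≤ ‖1 - y‖ := mul_le_of_le_one_left (norm_nonneg _) hy
    calc 1 / 2 * ‖Complex.log (1 + -(a ^ 2)) - -(a ^ 2)‖ * (‖y‖ * ‖1 - y‖)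
        ≤ 1 / 2 * (2 * ‖a‖ ^ 3) * ‖1 - y‖ := by gcongr
      _ = _ := by ring
  nlinarith [mul_nonneg (pow_nonneg hna 3) (norm_nonneg (1 - y))]

variable {K : Type} [Field K] [NumberField K] {N : ℕ}
  {a : HeightOneSpectrum (𝓞 K) → Fin N → ℂ}

/-- the squares of the parameters -/
def sqa (a : HeightOneSpectrum (𝓞 K) → Fin N → ℂ) (v : HeightOneSpectrum (𝓞 K)) (j : Fin N) : ℂ :=
  a v j ^ 2

lemma norm_sqa (h : Cen a) (v : HeightOneSpectrum (𝓞 K)) (j : Fin N) :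
    ‖sqa a v j‖ ≤ (nm v : ℝ) ^ (-1 : ℝ) := by
  unfold sqa
  rw [norm_pow]
  exact h.sq v j

lemma cen_sqa (h : Cen a) : Cen (sqa a) := fun v j =>
  (norm_sqa h v j).trans (Real.rpow_le_rpow_of_exponent_le (by linarith [two_le v]) (by norm_num))

lemma Cen.cube (h : Cen a) (v : HeightOneSpectrum (𝓞 K)) (j : Fin N) :
    ‖a v j‖ ^ 3 ≤ (nm v : ℝ) ^ (-(3 / 2) : ℝ) := by
  have h1 : ((nm v : ℝ) ^ (-(1 / 2) : ℝ)) ^ 3 = (nm v : ℝ) ^ (-(3 / 2) : ℝ) := by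
    rw [← Real.rpow_natCast, ← Real.rpow_mul (nm_pos v).le]
    norm_num
  rw [← h1]
  exact pow_le_pow_left₀ (norm_nonneg _) (h v j) 3

lemma yv_two (v : HeightOneSpectrum (𝓞 K)) (w : ℂ) : yv v (2 * w) = yv v w ^ 2 := by
  unfold yv
  rw [← Complex.exp_nat_mul]
  congr 1
  push_cast
  ring

/-- the terms of the correction function -/
noncomputable def gd (a : HeightOneSpectrum (𝓞 K) → Fin N → ℂ) (v : HeightOneSpectrum (𝓞 K))
    (w : ℂ) : ℂ := ∑ j, dd (a v j) (yv v w)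

/-- the correction function -/
noncomputable def DD (a : HeightOneSpectrum (𝓞 K) → Fin N → ℂ) (w : ℂ) : ℂ := ∑' v, gd a v w

lemma gd_eq (v : HeightOneSpectrum (𝓞 K)) (w : ℂ) :
    gd a v w = gt a v w + (1 / 2 * (cv (sqa a) v * yv v (2 * w)) -
      1 / 2 * (cv (sqa a) v * yv v w)) := by
  unfold gd gt cv dd sqa
  rw [Finset.sum_add_distrib, yv_two]
  congr 1
  simp only [Finset.sum_mul, Finset.mul_sum, ← Finset.sum_sub_distrib]
  refine Finset.sum_congr rfl fun j _ => ?_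
  ring

lemma norm_gd (h : Cen a) (v : HeightOneSpectrum (𝓞 K)) {w : ℂ} (hw : 0 ≤ w.re) :
    ‖gd a v w‖ ≤ 6 * N * ((nm v : ℝ) ^ (-(3 / 2) : ℝ) * ‖1 - yv v w‖) := by
  unfold gd
  refine (norm_sum_le_of_le (n := fun _ => 6 * ((nm v : ℝ) ^ (-(3 / 2) : ℝ) * ‖1 - yv v w‖)) _
    fun j _ => ?_).trans (le_of_eq ?_)
  · refine (dd_bound (h.le34 v j) (norm_yv_le v hw)).trans ?_
    have h2 := Cen.cube h v j
    calc 6 * ‖a v j‖ ^ 3 * ‖1 - yv v w‖ ≤ 6 * (nm v : ℝ) ^ (-(3 / 2) : ℝ) * ‖1 - yv v w‖ := by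
          gcongr
      _ = _ := by ring
  · rw [Finset.sum_const, Finset.card_univ, Fintype.card_fin, nsmul_eq_mul]
    ring

lemma norm_gd_two (h : Cen a) (v : HeightOneSpectrum (𝓞 K)) {w : ℂ} (hw : 0 ≤ w.re) :
    ‖gd a v w‖ ≤ 12 * N * (nm v : ℝ) ^ (-(3 / 2) : ℝ) := by
  refine (norm_gd h v hw).trans ?_
  have h1 := one_sub_yv_two v hw
  have h3 : 0 ≤ (nm v : ℝ) ^ (-(3 / 2) : ℝ) := Real.rpow_nonneg (nm_pos v).le _
  calc 6 * N * ((nm v : ℝ) ^ (-(3 / 2) : ℝ) * ‖1 - yv v w‖)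
      ≤ 6 * N * ((nm v : ℝ) ^ (-(3 / 2) : ℝ) * 2) := by gcongr
    _ = _ := by ring

lemma gd_differentiable (h : Cen a) (v : HeightOneSpectrum (𝓞 K)) {w : ℂ} (hw : 0 < w.re) :
    DifferentiableAt ℂ (gd a v) w := by
  have hy : ∀ z, DifferentiableAt ℂ (yv v) z := by
    intro z
    unfold yv
    fun_prop
  have e : gd a v = fun w => gt a v w + (1 / 2 * (cv (sqa a) v * yv v (2 * w)) -
      1 / 2 * (cv (sqa a) v * yv v w)) := funext fun w => gd_eq v w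
  rw [e]
  refine (gt_differentiable h v hw).add (DifferentiableAt.sub ?_ ?_)
  · refine DifferentiableAt.const_mul (DifferentiableAt.const_mul ?_ _) _
    exact DifferentiableAt.comp (g := yv v) (f := fun w : ℂ => 2 * w) w (hy _) (by fun_prop)
  · exact ((hy w).const_mul _).const_mul _

theorem DD_differentiable (h : Cen a) {w : ℂ} (hw : 0 < w.re) : DifferentiableAt ℂ (DD a) w := by
  set U : Set ℂ := {z | 0 < z.re} with hU
  have hUo : IsOpen U := isOpen_lt continuous_const Complex.continuous_re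
  have h1 : DifferentiableOn ℂ (fun z => ∑' v, gd a v z) U := by
    refine Complex.differentiableOn_tsum_of_summable_norm
      (u := fun v : HeightOneSpectrum (𝓞 K) => 12 * N * (nm v : ℝ) ^ (-(3 / 2) : ℝ))
      ((summable_nm (by norm_num)).mul_left _) (fun v z hz => ?_) hUo (fun v z hz => ?_)
    · exact (gd_differentiable h v hz).differentiableWithinAt
    · exact norm_gd_two h v (le_of_lt hz)
  exact (h1 w hw).differentiableAt (hUo.mem_nhds hw)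

theorem DD_lin (h : Cen a) : ∃ C : ℝ, 0 ≤ C ∧ ∀ w : ℂ, 0 ≤ w.re → ‖DD a w‖ ≤ C * ‖w‖ := by
  have hs : Summable fun v : HeightOneSpectrum (𝓞 K) =>
      24 * (N : ℝ) * (nm v : ℝ) ^ (-(5 / 4) : ℝ) := (summable_nm (by norm_num)).mul_left _
  refine ⟨∑' v : HeightOneSpectrum (𝓞 K), 24 * (N : ℝ) * (nm v : ℝ) ^ (-(5 / 4) : ℝ),
    tsum_nonneg fun v => by have := nm_pos v; positivity, fun w hw => ?_⟩
  rw [← tsum_mul_right]
  unfold DD
  refine tsum_of_norm_bounded (hs.mul_right _).hasSum fun v => (norm_gd h v hw).trans ?_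
  have h1 := one_sub_yv v hw
  have h2 : 0 ≤ (nm v : ℝ) ^ (-(3 / 2) : ℝ) := Real.rpow_nonneg (nm_pos v).le _
  have h3 : Real.log (nm v) ≤ (nm v : ℝ) ^ (1 / 4 : ℝ) / (1 / 4) :=
    Real.log_le_rpow_div (nm_pos v).le (by norm_num)
  have h4 : (nm v : ℝ) ^ (-(3 / 2) : ℝ) * (nm v : ℝ) ^ (1 / 4 : ℝ) =
      (nm v : ℝ) ^ (-(5 / 4) : ℝ) := by
    rw [← Real.rpow_add (nm_pos v)]
    norm_num
  calc 6 * N * ((nm v : ℝ) ^ (-(3 / 2) : ℝ) * ‖1 - yv v w‖)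
      ≤ 6 * N * ((nm v : ℝ) ^ (-(3 / 2) : ℝ) * (‖w‖ * Real.log (nm v))) := by gcongr
    _ ≤ 6 * N * ((nm v : ℝ) ^ (-(3 / 2) : ℝ) * (‖w‖ * ((nm v : ℝ) ^ (1 / 4 : ℝ) / (1 / 4)))) := by
        gcongr
    _ = 24 * N * ((nm v : ℝ) ^ (-(3 / 2) : ℝ) * (nm v : ℝ) ^ (1 / 4 : ℝ)) * ‖w‖ := by ring
    _ = _ := by rw [h4]

/-- the main function -/
noncomputable def MM (a : HeightOneSpectrum (𝓞 K) → Fin N → ℂ) (w : ℂ) : ℂ :=
  SS a w - (1 / 2 * SS (sqa a) w - 1 / 2 * SS (sqa a) (2 * w))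

theorem DD_eq (h : Cen a) {w : ℂ} (hw : 1 / 2 < w.re) :
    DD a w - MM a w = GG a w - SS a w := by
  have hs1 : Summable fun v : HeightOneSpectrum (𝓞 K) => gt a v w :=
    Summable.of_norm_bounded ((summable_nm (σ := 1 + 1 / 2) (by norm_num)).mul_left _)
      fun v => norm_gt_delta h v (by norm_num) hw.le
  have hs2 := SS_summable (cen_sqa h) hw
  have hw2 : 1 / 2 < (2 * w).re := by
    rw [Complex.mul_re, Complex.re_ofNat, Complex.im_ofNat, zero_mul, sub_zero]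
    linarith
  have hs3 := SS_summable (cen_sqa h) hw2
  have e : DD a w = GG a w + (1 / 2 * SS (sqa a) (2 * w) - 1 / 2 * SS (sqa a) w) := by
    unfold DD GG SS
    simp only [gd_eq]
    rw [hs1.tsum_add ((hs3.mul_left _).sub (hs2.mul_left _)),
      (hs3.mul_left _).tsum_sub (hs2.mul_left _), tsum_mul_left, tsum_mul_left]
  rw [e]
  unfold MM
  ring

/-! ### The mean -/

/-- the refined mean -/
noncomputable def cmean2 (a : HeightOneSpectrum (𝓞 K) → Fin N → ℂ) (τ T : ℝ) : ℂ :=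
  cmean a τ T - (1 / 2 * cmean (sqa a) τ T - 1 / 2 * cmean (sqa a) τ (T / 2))

theorem cmean_eq' (h : Cen a) (τ : ℝ) {T b : ℝ} (hb0 : 0 ≤ b)
    (hre : ∀ z ∈ HS b, 1 ≤ (dir τ * (z / T)).re) :
    J b (fun z => SS a (dir τ * (z / T))) = cmean a τ T ∧
      Adm b (fun z => SS a (dir τ * (z / T))) := by
  have hb : ∀ (v : HeightOneSpectrum (𝓞 K)), ∀ z ∈ HS b,
      ‖cv a v * yv v (dir τ * (z / T))‖ ≤ 4 * N * (nm v : ℝ) ^ (-(3 / 2) : ℝ) :=
    fun v z hz => norm_cv_yv_one h v (hre z hz)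
  have h1 := J_hasSum (a := b) hb0
    (F := fun (v : HeightOneSpectrum (𝓞 K)) z => cv a v * yv v (dir τ * (z / T)))
    ((summable_nm (K := K) (σ := 3 / 2) (by norm_num)).mul_left (4 * (N : ℝ)))
    (fun v => ⟨by unfold yv; fun_prop, 4 * N * (nm v : ℝ) ^ (-(3 / 2) : ℝ), 0,
      mul_nonneg (by positivity) (Real.rpow_nonneg (nm_pos v).le _), le_rfl,
      fun z hz => by
        have := hb v z hz
        simpa using this⟩) hb
  have h2 : ∀ v : HeightOneSpectrum (𝓞 K), J b (fun z => cv a v * yv v (dir τ * (z / T))) =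
      cv a v * wgt τ T v := by
    intro v
    have e3 : (fun z : ℂ => cv a v * yv v (dir τ * (z / T))) =
        fun z => cv a v * Complex.exp (-(z * (dir τ * (Real.log (nm v) / T)))) := by
      funext z
      unfold yv
      congr 2
      ring
    rw [e3, J_const_mul, J_cexp]
    rfl
  simp only [h2] at h1
  refine ⟨h1.tsum_eq.symm, ⟨(SS_cont h).comp (by fun_prop) hre,
    |∑' v : HeightOneSpectrum (𝓞 K), 4 * N * (nm v : ℝ) ^ (-(3 / 2) : ℝ)|, 0, abs_nonneg _, le_rfl,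
    fun z hz => ?_⟩⟩
  have := (SS_le h (hre z hz)).trans (le_abs_self _)
  linarith

theorem cmean2_eq (h : Cen a) (τ : ℝ) {T : ℝ} (hT : 1 ≤ T) (hτ : Real.pi * |τ| ≤ T) :
    J (3 * T) (fun z => MM a (dir τ * (z / T))) = cmean2 a τ T := by
  have hT0 : (0 : ℝ) < T := by linarith
  have hTc : (T : ℂ) ≠ 0 := by exact_mod_cast hT0.ne'
  have hre : ∀ z ∈ HS (3 * T), 2 ≤ (dir τ * (z / T)).re := by
    intro z hz
    have e1 : (z / T).re = z.re / T := by simp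
    have e2 : (z / T).im = z.im / T := by simp
    rw [dir_mul_re, e1, e2]
    have h1 : 3 ≤ z.re / T := by
      rw [le_div_iff₀ hT0]
      exact hz.1
    have h2 : τ * (z.im / T) ≤ 1 := by
      rw [mul_div_assoc', div_le_one hT0]
      have h3 : τ * z.im ≤ |τ| * |z.im| := by rw [← abs_mul]; exact le_abs_self _
      have h4 : |τ| * |z.im| ≤ |τ| * Real.pi := mul_le_mul_of_nonneg_left hz.2 (abs_nonneg _)
      linarith
    linarith
  have hdbl : ∀ z : ℂ, dir τ * (z / ((T / 2 : ℝ) : ℂ)) = 2 * (dir τ * (z / T)) := by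
    intro z
    push_cast
    field_simp
  have hre2 : ∀ z ∈ HS (3 * T), 1 ≤ (dir τ * (z / ((T / 2 : ℝ) : ℂ))).re := by
    intro z hz
    rw [hdbl, Complex.mul_re, Complex.re_ofNat, Complex.im_ofNat, zero_mul, sub_zero]
    linarith [hre z hz]
  have hb0 : 0 ≤ 3 * T := by positivity
  obtain ⟨j1, a1⟩ := cmean_eq' h τ (T := T) hb0 fun z hz => by linarith [hre z hz]
  obtain ⟨j2, a2⟩ := cmean_eq' (cen_sqa h) τ (T := T) hb0 fun z hz => by linarith [hre z hz]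
  obtain ⟨j3, a3⟩ := cmean_eq' (cen_sqa h) τ (T := T / 2) hb0 hre2
  simp only [hdbl] at j3 a3
  have adm_mul : ∀ {Φ : ℂ → ℂ}, Adm (3 * T) Φ → Adm (3 * T) (fun z => (1 / 2 : ℂ) * Φ z) := by
    intro Φ hΦ
    obtain ⟨hc, A, B, hA, hB, hAB⟩ := hΦ
    refine ⟨continuousOn_const.mul hc, A, B, hA, hB, fun z hz => ?_⟩
    rw [norm_mul]
    have h6 : ‖(1 / 2 : ℂ)‖ = 1 / 2 := by norm_num
    rw [h6]
    have := hAB z hz
    have h7 := norm_nonneg (Φ z)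
    linarith
  have adm_sub : Adm (3 * T) (fun z => (1 / 2 : ℂ) * SS (sqa a) (dir τ * (z / T)) -
      1 / 2 * SS (sqa a) (2 * (dir τ * (z / T)))) := by
    obtain ⟨hc, A, B, hA, hB, hAB⟩ := adm_mul a2
    obtain ⟨hc', A', B', hA', hB', hAB'⟩ := adm_mul a3
    refine ⟨hc.sub hc', A + A', B + B', by positivity, by positivity, fun z hz => ?_⟩
    refine (norm_sub_le _ _).trans ?_
    have h1 := hAB z hz
    have h2 := hAB' z hz
    linarith
  unfold MM cmean2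
  rw [J_sub hb0 a1 adm_sub, J_sub hb0 (adm_mul a2) (adm_mul a3), J_const_mul, J_const_mul, j1, j2,
    j3]

end Pool.Agent.U745.LT
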