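import Pool.Agent.U745.LT.Mer

/-!
# Conclusions for the refined rotated means
-/

set_option autoImplicit false

namespace Pool.Agent.U745.LT

open NumberField IsDedekindDomain Filter Topology MeasureTheory
open Pool.Agent.TH339.MP (nm two_le_nm)
open Pool.Agent.W524.RY (dir dir_re dir_im dir_ne dir_mul_re dir_mul_real_re inv_gamma_le J_cexp)
open Pool.Agent.W189.LC (kap)
open Pool.Agent.R409.RA

variable {K : Type} [Field K] [NumberField K] {N i : ℕ}
  {α : HeightOneSpectrum (𝓞 K) → Fin N → ℂ} {F : ℂ → ℂ}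
  {a : HeightOneSpectrum (𝓞 K) → Fin N → ℂ}

lemma norm_cv_sqa (h : Cen a) (v : HeightOneSpectrum (𝓞 K)) :
    ‖cv (sqa a) v‖ ≤ 4 * N * (nm v : ℝ) ^ (-1 : ℝ) := by
  unfold cv
  refine (norm_sum_le_of_le (n := fun _ => 4 * (nm v : ℝ) ^ (-1 : ℝ)) _ fun j _ => ?_).trans
    (le_of_eq ?_)
  · exact (log_bound ((cen_sqa h).le34 v j)).trans
      (mul_le_mul_of_nonneg_left (norm_sqa h v j) (by norm_num))
  · rw [Finset.sum_const, Finset.card_univ, Fintype.card_fin, nsmul_eq_mul]
    ring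

/-- the correction term is small -/
theorem cmean_sqa_le (h : Cen a) (τ : ℝ) : ∃ C : ℝ, 0 ≤ C ∧ ∀ᶠ T : ℝ in atTop,
    ‖cmean (sqa a) τ T‖ ≤ C * T := by
  obtain ⟨C, σ₀, hσ₀, hC⟩ := place_sum K
  set A : ℝ := Real.exp (Real.exp (Real.pi * |τ| + 1)) + 1 with hA
  have hA0 : 0 ≤ A := by positivity
  have hl2 : 0 < Real.log 2 := Real.log_pos (by norm_num)
  refine ⟨4 * N * A * (|C| / Real.log 2), by positivity, ?_⟩
  filter_upwards [eventually_gt_atTop (1 / σ₀), eventually_gt_atTop 0] with T hT hT0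
  have hσ : 1 / T < σ₀ := by
    rw [div_lt_iff₀ hT0, mul_comm, ← div_lt_iff₀ hσ₀]; exact hT
  obtain ⟨hs, hle⟩ := hC (1 / T) (by positivity) hσ
  have hterm : ∀ v : HeightOneSpectrum (𝓞 K), ‖cv (sqa a) v * wgt τ T v‖ ≤
      4 * N * A / Real.log 2 * (Real.log (nm v) * (nm v : ℝ) ^ (-(1 + 1 / T))) := by
    intro v
    have hq := nm_pos v
    have hv : 0 ≤ Real.log (nm v) / T := div_nonneg (log_nm_nonneg v) hT0.le
    have h2 := inv_gamma_le τ (c := Real.pi * |τ| + 1) (by positivity) hv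
    have h3 : Real.exp (-((Real.pi * |τ| + 1 - Real.pi * |τ|) * (Real.log (nm v) / T))) =
        (nm v : ℝ) ^ (-(1 / T)) := by
      rw [Real.rpow_def_of_pos hq]
      congr 1
      field_simp
      ring
    rw [h3, Complex.ofReal_div] at h2
    have h4 : ‖wgt τ T v‖ ≤ A * (nm v : ℝ) ^ (-(1 / T)) := h2
    rw [norm_mul]
    have h5 : (nm v : ℝ) ^ (-1 : ℝ) * (nm v : ℝ) ^ (-(1 / T)) = (nm v : ℝ) ^ (-(1 + 1 / T)) := by
      rw [← Real.rpow_add hq]
      congr 1
      ring
    have h6 : Real.log 2 ≤ Real.log (nm v) := Real.log_le_log (by norm_num) (two_le v)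
    have h7 : 0 ≤ (nm v : ℝ) ^ (-(1 + 1 / T)) := Real.rpow_nonneg hq.le _
    calc ‖cv (sqa a) v‖ * ‖wgt τ T v‖
        ≤ (4 * N * (nm v : ℝ) ^ (-1 : ℝ)) * (A * (nm v : ℝ) ^ (-(1 / T))) := by
          gcongr
          exact norm_cv_sqa h v
      _ = 4 * N * A * (nm v : ℝ) ^ (-(1 + 1 / T)) := by rw [← h5]; ring
      _ = 4 * N * A / Real.log 2 * (Real.log 2 * (nm v : ℝ) ^ (-(1 + 1 / T))) := by
          field_simp
      _ ≤ _ := by gcongr
  have h1 : ‖cmean (sqa a) τ T‖ ≤ 4 * N * A / Real.log 2 *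
      ∑' v : HeightOneSpectrum (𝓞 K), Real.log (nm v) * (nm v : ℝ) ^ (-(1 + 1 / T)) := by
    rw [← tsum_mul_left]
    exact tsum_of_norm_bounded (hs.mul_left _).hasSum hterm
  refine h1.trans ?_
  have h2 : ∑' v : HeightOneSpectrum (𝓞 K), Real.log (nm v) * (nm v : ℝ) ^ (-(1 + 1 / T)) ≤
      |C| * T := by
    have h3 := hle.trans (le_abs_self C)
    rw [one_div_mul_eq_div, div_le_iff₀ hT0] at h3
    exact h3
  calc 4 * N * A / Real.log 2 * _ ≤ 4 * N * A / Real.log 2 * (|C| * T) := by gcongr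
    _ = _ := by ring

/-- the refined mean as a function of the cut-off -/
noncomputable def WW (a : HeightOneSpectrum (𝓞 K) → Fin N → ℂ) (τ X : ℝ) : ℂ :=
  cmean2 a τ (Real.log X)

theorem exp_gap_log {C e x₀ : ℝ} (hC : 0 ≤ C) (he : e < x₀) (h0 : 0 < x₀) :
    ∃ e' < x₀, ∀ᶠ X : ℝ in atTop, Real.exp (X ^ e) + C * Real.log X ≤ Real.exp (X ^ e') := by
  set f : ℝ := max e 0 with hf
  have hf0 : 0 ≤ f := le_max_right _ _
  have hf1 : f < x₀ := max_lt he h0
  set e' : ℝ := (f + x₀) / 2 with he'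
  have he0 : 0 < e' := by rw [he']; linarith
  have hef : f < e' := by rw [he']; linarith
  refine ⟨e', by rw [he']; linarith, ?_⟩
  have h1 : ∀ᶠ X : ℝ in atTop, C * Real.log X ≤ X ^ e' / 2 := by
    have h7 : (fun X : ℝ => C * Real.log X) =o[atTop] fun X => X ^ e' :=
      (isLittleO_log_rpow_atTop he0).const_mul_left C
    have h8 := h7.bound (show (0 : ℝ) < 1 / 2 by norm_num)
    filter_upwards [h8, eventually_gt_atTop 1] with X h9 hX
    have h10 : (0 : ℝ) ≤ X ^ e' := Real.rpow_nonneg (by linarith) _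
    rw [Real.norm_eq_abs, Real.norm_eq_abs, abs_of_nonneg h10] at h9
    have := le_abs_self (C * Real.log X)
    linarith
  have h2 : ∀ᶠ X : ℝ in atTop, X ^ f ≤ X ^ e' / 2 := by
    have h7 : Tendsto (fun X : ℝ => X ^ (-(e' - f))) atTop (𝓝 0) :=
      tendsto_rpow_neg_atTop (by linarith)
    filter_upwards [h7.eventually (eventually_le_nhds (show (0 : ℝ) < 1 / 2 by norm_num)),
      eventually_gt_atTop 1] with X h9 hX
    have hX0 : 0 < X := by linarith
    have h10 : (0 : ℝ) ≤ X ^ e' := Real.rpow_nonneg hX0.le _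
    have h11 : X ^ f = X ^ e' * X ^ (-(e' - f)) := by
      rw [← Real.rpow_add hX0]
      congr 1
      ring
    rw [h11]
    nlinarith
  filter_upwards [h1, h2, eventually_gt_atTop 1] with X h3 h4 hX
  have hX0 : 0 < X := by linarith
  have h5 : X ^ e ≤ X ^ f := Real.rpow_le_rpow_of_exponent_le hX.le (le_max_left _ _)
  have h6 : Real.exp (X ^ e') = Real.exp (X ^ e' / 2) * Real.exp (X ^ e' / 2) := by
    rw [← Real.exp_add]
    congr 1
    ring
  have h7 : 0 ≤ C * Real.log X := mul_nonneg hC (Real.log_nonneg hX.le)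
  have h8 : Real.exp (X ^ e) ≤ Real.exp (X ^ e' / 2) := Real.exp_le_exp.2 (h5.trans h4)
  have h9 : 1 + C * Real.log X ≤ Real.exp (X ^ e' / 2) := by
    have := Real.add_one_le_exp (X ^ e' / 2)
    linarith
  have h10 : 1 ≤ Real.exp (X ^ e' / 2) := by linarith
  rw [h6]
  nlinarith

/-- directions with zeros or poles -/
theorem blocked2 (h : Cont i α F) (τ : ℝ) {x₀ : ℝ} (h0 : 0 < x₀)
    (h1 : x₀ ≤ 1) {m : ℤ} (hm : meromorphicOrderAt F (rp i τ x₀) = m) (hm0 : m ≠ 0)
    (hnz : ∀ x : ℝ, x₀ < x → meromorphicOrderAt F (rp i τ x) = 0) {e : ℝ} (he : e < x₀) :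
    ∀ᶠ X : ℝ in atTop, Real.exp (X ^ e) ≤ (Int.sign m : ℝ) * (WW (ca i α) τ X).re := by
  have hgood : Good i α ∅ (cv (ca i α)) := fun v _ => rfl
  have hc := cen_ca h.temp
  obtain ⟨C, hC0, hC⟩ := cmean_sqa_le hc τ
  obtain ⟨e', he', hgap⟩ := exp_gap_log (C := C) hC0 he h0
  have hb := (blocked h hgood τ h0 h1 hm hm0 hnz).2 e' he'
  have hlog : Tendsto Real.log atTop atTop := Real.tendsto_log_atTop
  have hlog2 : Tendsto (fun X : ℝ => Real.log X / 2) atTop atTop :=
    hlog.atTop_div_const (by norm_num)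
  filter_upwards [hb, hgap, hlog.eventually hC, hlog2.eventually hC, eventually_gt_atTop 1]
    with X h2 h3 h4 h5 hX
  have hT : 0 ≤ Real.log X := Real.log_nonneg hX.le
  have e1 : rsum (cv (ca i α)) τ X = cmean (ca i α) τ (Real.log X) := rfl
  rw [e1] at h2
  have e2 : WW (ca i α) τ X = cmean (ca i α) τ (Real.log X) -
      (1 / 2 * cmean (sqa (ca i α)) τ (Real.log X) -
        1 / 2 * cmean (sqa (ca i α)) τ (Real.log X / 2)) := rfl
  set E : ℂ := 1 / 2 * cmean (sqa (ca i α)) τ (Real.log X) -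
        1 / 2 * cmean (sqa (ca i α)) τ (Real.log X / 2) with hE
  have hEn : ‖E‖ ≤ C * Real.log X := by
    rw [hE]
    refine (norm_sub_le _ _).trans ?_
    rw [norm_mul, norm_mul]
    have h6 : ‖(1 / 2 : ℂ)‖ = 1 / 2 := by norm_num
    rw [h6]
    have : C * (Real.log X / 2) ≤ C * Real.log X :=
      mul_le_mul_of_nonneg_left (by linarith) hC0
    linarith
  have hs : |(Int.sign m : ℝ)| ≤ 1 := by
    rcases lt_trichotomy m 0 with h6 | h6 | h6
    · rw [Int.sign_eq_neg_one_of_neg h6]; norm_num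
    · rw [h6]; simp
    · rw [Int.sign_eq_one_of_pos h6]; norm_num
  have h7 : |(Int.sign m : ℝ) * E.re| ≤ C * Real.log X := by
    rw [abs_mul]
    calc |(Int.sign m : ℝ)| * |E.re| ≤ 1 * ‖E‖ := by
          gcongr
          exact Complex.abs_re_le_norm _
      _ = ‖E‖ := one_mul _
      _ ≤ _ := hEn
  rw [e2, Complex.sub_re, mul_sub]
  have h8 := (abs_le.1 h7).2
  linarith

/-- free directions -/
theorem free2 (h : Cont i α F) (τ : ℝ) {m : ℤ}
    (hm : meromorphicOrderAt F (((i : ℂ) + 1) / 2) = m)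
    (hnz : ∀ x : ℝ, 0 < x → meromorphicOrderAt F (rp i τ x) = 0) :
    ∃ C : ℝ, ∀ᶠ X : ℝ in atTop,
      ‖Complex.exp (WW (ca i α) τ X) * (dir τ * Real.exp kap / Real.log X) ^ m -
        (meromorphicTrailingCoeffAt F (((i : ℂ) + 1) / 2))⁻¹‖ ≤ C / Real.log X := by
  obtain ⟨q0, hq0, C, T₀, hC0, hT₀, hC⟩ := cmean2_asymp h τ hm hnz
  set ℓ := meromorphicTrailingCoeffAt F (((i : ℂ) + 1) / 2) with hℓ
  have hd := zpow_ne_zero m (dir_ne τ)
  refine ⟨‖ℓ⁻¹‖ * (2 * C), ?_⟩
  have hlog : Tendsto Real.log atTop atTop := Real.tendsto_log_atTop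
  filter_upwards [hlog.eventually (eventually_ge_atTop T₀), hlog.eventually (eventually_ge_atTop C),
    hlog.eventually (eventually_ge_atTop 1)] with X h1 h2 h3
  set T := Real.log X with hT
  have hT0 : 0 < T := by linarith
  have h4 := hC T h1
  set ε : ℂ := cmean2 (ca i α) τ T - (m * (Real.log T - (kap : ℝ)) - q0) with hε
  have h5 : ‖ε‖ ≤ 1 := h4.trans (by rw [div_le_one hT0]; exact h2)
  have hW : WW (ca i α) τ X = m * (Real.log T - (kap : ℝ)) - q0 + ε := by
    have : WW (ca i α) τ X = cmean2 (ca i α) τ T := rfl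
    rw [this, hε]
    ring
  have hTc : (T : ℂ) ≠ 0 := by exact_mod_cast hT0.ne'
  have e1 : Complex.exp (m * (Real.log T - (kap : ℝ))) = ((T : ℂ) / Real.exp kap) ^ m := by
    rw [Complex.exp_int_mul, Complex.exp_sub, ← Complex.ofReal_exp, ← Complex.ofReal_exp,
      Real.exp_log hT0]
  have hek : ((Real.exp kap : ℝ) : ℂ) ≠ 0 := by exact_mod_cast (Real.exp_pos kap).ne'
  have e2 : Complex.exp (WW (ca i α) τ X) * (dir τ * Real.exp kap / T) ^ m =
      ℓ⁻¹ * Complex.exp ε := by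
    rw [hW, Complex.exp_add, Complex.exp_sub, e1, hq0]
    have e3 : ((T : ℂ) / Real.exp kap) ^ m * (dir τ * Real.exp kap / T) ^ m = dir τ ^ m := by
      rw [← mul_zpow]
      congr 1
      field_simp
    calc ((T : ℂ) / Real.exp kap) ^ m / (dir τ ^ m * ℓ) * Complex.exp ε *
        (dir τ * Real.exp kap / T) ^ m
        = (((T : ℂ) / Real.exp kap) ^ m * (dir τ * Real.exp kap / T) ^ m) / (dir τ ^ m * ℓ) *
          Complex.exp ε := by ring
      _ = dir τ ^ m / (dir τ ^ m * ℓ) * Complex.exp ε := by rw [e3]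
      _ = _ := by
        congr 1
        rw [div_mul_eq_div_div, div_self hd, one_div]
  rw [e2]
  have e4 : ℓ⁻¹ * Complex.exp ε - ℓ⁻¹ = ℓ⁻¹ * (Complex.exp ε - 1) := by ring
  rw [e4, norm_mul]
  have h6 := Complex.norm_exp_sub_one_le h5
  calc ‖ℓ⁻¹‖ * ‖Complex.exp ε - 1‖ ≤ ‖ℓ⁻¹‖ * (2 * ‖ε‖) := by gcongr
    _ ≤ ‖ℓ⁻¹‖ * (2 * (C / T)) := by gcongr
    _ = _ := by ring

/-- the leading term of `F` at `c` is `B (s - c) ^ ρ` -/
def Leading (F : ℂ → ℂ) (c : ℂ) (ρ : ℤ) (B : ℂ) : Prop :=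
  Tendsto (fun s : ℂ => (s - c) ^ (-ρ) * F s) (𝓝[≠] c) (𝓝 B)

theorem leading_iff {c : ℂ} (hF : MeromorphicAt F c) {ρ : ℤ} {B : ℂ} (hB : B ≠ 0) :
    Leading F c ρ B ↔ meromorphicOrderAt F c = ρ ∧ meromorphicTrailingCoeffAt F c = B := by
  have hz : MeromorphicAt (fun s : ℂ => (s - c) ^ (-ρ)) c := MeromorphicAt.fun_zpow (by fun_prop) _
  have hmer : MeromorphicAt (fun s : ℂ => (s - c) ^ (-ρ) * F s) c := hz.fun_mul hF
  have hlim : meromorphicOrderAt F c = ρ →
      Tendsto (fun s : ℂ => (s - c) ^ (-ρ) * F s) (𝓝[≠] c) (𝓝 (meromorphicTrailingCoeffAt F c)) := by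
    intro h
    have t2 := hF.tendsto_nhds_meromorphicTrailingCoeffAt
    have h2 : (meromorphicOrderAt F c).untop₀ = ρ := by rw [h]; rfl
    rw [h2] at t2
    refine t2.congr' ?_
    filter_upwards with s
    simp
  constructor
  · intro h
    have h1 : meromorphicOrderAt (fun s : ℂ => (s - c) ^ (-ρ) * F s) c = 0 :=
      (tendsto_ne_zero_iff_meromorphicOrderAt_eq_zero hmer).1 ⟨B, hB, h⟩
    have h2 : meromorphicOrderAt F c = ρ := by
      obtain ⟨g, hg, hg0, he⟩ := (meromorphicOrderAt_eq_int_iff (n := 0) hmer).1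
        (by rw [h1]; rfl)
      refine (meromorphicOrderAt_eq_int_iff hF).2 ⟨g, hg, hg0, ?_⟩
      filter_upwards [he, self_mem_nhdsWithin] with s hs hs2
      have hs3 : s - c ≠ 0 := sub_ne_zero.2 hs2
      rw [zpow_zero, one_smul] at hs
      rw [← hs, smul_eq_mul, ← mul_assoc, ← zpow_add₀ hs3, add_neg_cancel, zpow_zero, one_mul]
    exact ⟨h2, tendsto_nhds_unique (hlim h2) h⟩
  · rintro ⟨h1, h2⟩
    have := hlim h1
    rwa [h2] at this

/-- the equivalences -/
theorem tfae2 (h : Cont i α F) (ρ : ℤ) {B : ℂ} (hB : B ≠ 0) :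
    List.TFAE [
      Leading F (((i : ℂ) + 1) / 2) ρ B,
      ∃ (τ : ℝ) (X : ℕ → ℝ), Tendsto X atTop atTop ∧
        Tendsto (fun n => Complex.exp (WW (ca i α) τ (X n)) *
          (dir τ * Real.exp kap / Real.log (X n)) ^ ρ) atTop (𝓝 B⁻¹),
      ∀ τ : ℝ, (∀ x : ℝ, 0 < x → meromorphicOrderAt F (rp i τ x) = 0) →
        ∃ C : ℝ, ∀ᶠ X : ℝ in atTop, ‖Complex.exp (WW (ca i α) τ X) *
          (dir τ * Real.exp kap / Real.log X) ^ ρ - B⁻¹‖ ≤ C / Real.log X] := by
  have hcen : ((i : ℝ) + 1) / 2 ≤ (((i : ℂ) + 1) / 2).re := (re_half i).ge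
  have hmF : MeromorphicAt F (((i : ℂ) + 1) / 2) := h.mer _ hcen
  obtain ⟨r, hr⟩ := WithTop.ne_top_iff_exists.1 (h.ne_top hcen)
  have hlog : Tendsto Real.log atTop atTop := Real.tendsto_log_atTop
  have hexists : ∃ τ : ℝ, ∀ x : ℝ, 0 < x → meromorphicOrderAt F (rp i τ x) = 0 := by
    by_contra hcon
    push Not at hcon
    have h1 := h.blocked_finite 1
    have h2 : {τ : ℝ | |τ| ≤ 1 ∧ ∃ x : ℝ, 0 < x ∧ meromorphicOrderAt F (rp i τ x) ≠ 0} =
        Set.Icc (-1) 1 := by
      ext τ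
      simp only [Set.mem_ofPred_eq, Set.mem_Icc, ← abs_le]
      exact ⟨fun h => h.1, fun h => ⟨h, hcon τ⟩⟩
    rw [h2] at h1
    exact (Set.Icc_infinite (by norm_num : (-1 : ℝ) < 1)) h1
  have hlim : ∀ {f : ℝ → ℂ} {b : ℂ}, (∃ C : ℝ, ∀ᶠ X : ℝ in atTop, ‖f X - b‖ ≤ C / Real.log X) →
      Tendsto f atTop (𝓝 b) := by
    rintro f b ⟨C, hC⟩
    rw [tendsto_iff_norm_sub_tendsto_zero]
    refine squeeze_zero' (g := fun X => C / Real.log X) (Eventually.of_forall fun X => norm_nonneg _)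
      hC ?_
    exact tendsto_const_nhds.div_atTop hlog
  tfae_have 1 → 3 := by
    intro h1 τ hτ
    obtain ⟨h2, h3⟩ := (leading_iff hmF hB).1 h1
    rw [← h3]
    exact free2 h τ h2 hτ
  tfae_have 3 → 2 := by
    intro h1
    obtain ⟨τ, hτ⟩ := hexists
    exact ⟨τ, fun n => n, tendsto_natCast_atTop_atTop,
      (hlim (h1 τ hτ)).comp tendsto_natCast_atTop_atTop⟩
  tfae_have 2 → 1 := by
    rintro ⟨τ, X, hX, h1⟩
    have hek := Real.exp_pos kap
    set D : ℝ := ‖dir τ‖ * Real.exp kap with hD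
    have hD0 : 0 < D := mul_pos (norm_pos_iff.2 (dir_ne τ)) hek
    have hlX : Tendsto (fun n => Real.log (X n)) atTop atTop := hlog.comp hX
    -- the logarithms of the norms
    have hnorm : ∀ (ρ' : ℤ) {b : ℂ}, b ≠ 0 → Tendsto (fun n => Complex.exp (WW (ca i α) τ (X n)) *
          (dir τ * Real.exp kap / Real.log (X n)) ^ ρ') atTop (𝓝 b) →
        Tendsto (fun n => (WW (ca i α) τ (X n)).re + ρ' * Real.log (D / Real.log (X n))) atTop
          (𝓝 (Real.log ‖b‖)) := by
      intro ρ' b hb h2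
      have h3 := (h2.norm).log (norm_pos_iff.2 hb).ne'
      refine h3.congr' ?_
      filter_upwards [hlX.eventually (eventually_gt_atTop 0)] with n hn
      have e1 : ‖dir τ * (Real.exp kap : ℂ) / (Real.log (X n) : ℂ)‖ = D / Real.log (X n) := by
        rw [norm_div, norm_mul, Complex.norm_real, Complex.norm_real, Real.norm_of_nonneg hn.le,
          Real.norm_of_nonneg hek.le]
      rw [norm_mul, Complex.norm_exp, norm_zpow, e1, Real.log_mul (Real.exp_pos _).ne'
        (zpow_pos (div_pos hD0 hn) _).ne', Real.log_exp, Real.log_zpow]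
    by_cases hτ : ∀ x : ℝ, 0 < x → meromorphicOrderAt F (rp i τ x) = 0
    · set ℓ := meromorphicTrailingCoeffAt F (((i : ℂ) + 1) / 2) with hℓ
      have hℓ0 : ℓ ≠ 0 := by
        rw [hℓ]
        exact hmF.meromorphicTrailingCoeffAt_ne_zero (by rw [← hr]; exact WithTop.coe_ne_top)
      have h2 := (hlim (free2 h τ hr.symm hτ)).comp hX
      have h3 := hnorm r (inv_ne_zero hℓ0) h2
      have h4 := hnorm ρ (inv_ne_zero hB) h1
      have h5 := h4.sub h3
      have hrρ : r = ρ := by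
        by_contra hne
        have hne' : ((ρ : ℝ) - r) ≠ 0 := by
          intro h6
          apply hne
          have : (r : ℝ) = ρ := by linarith
          exact_mod_cast this
        have h6 := h5.const_mul (((ρ : ℝ) - r)⁻¹)
        have h7 : (fun n => ((ρ : ℝ) - r)⁻¹ *
            ((WW (ca i α) τ (X n)).re + ρ * Real.log (D / Real.log (X n)) -
            ((WW (ca i α) τ (X n)).re + r * Real.log (D / Real.log (X n))))) =
            fun n => Real.log (D / Real.log (X n)) := by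
          funext n
          field_simp
          ring
        rw [h7] at h6
        have h8 : Tendsto (fun n => D / Real.log (X n)) atTop (𝓝[>] 0) := by
          rw [tendsto_nhdsWithin_iff]
          refine ⟨tendsto_const_nhds.div_atTop hlX, ?_⟩
          filter_upwards [hlX.eventually (eventually_gt_atTop 0)] with n hn
          exact div_pos hD0 hn
        have h9 := Real.tendsto_log_nhdsGT_zero.comp h8
        exact not_tendsto_nhds_of_tendsto_atBot h9 _ h6
      rw [hrρ] at h2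
      have h6 := tendsto_nhds_unique h2 h1
      refine (leading_iff hmF hB).2 ⟨by rw [← hr, hrρ], inv_injective h6⟩
    · exfalso
      push Not at hτ
      obtain ⟨y, hy, hyz⟩ := hτ
      obtain ⟨x₀, h0, h01, hnz, hz⟩ := h.exists_last τ
      have hx0 : 0 < x₀ := by
        by_contra hcon
        exact hyz (hnz y (by linarith))
      have hz' : meromorphicOrderAt F (rp i τ x₀) ≠ 0 := by
        rcases hz with h2 | h2
        · exact absurd h2 hx0.ne'
        · exact h2
      obtain ⟨m, hm⟩ := WithTop.ne_top_iff_exists.1 (h.ne_top (s := rp i τ x₀) (by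
        rw [rp_re]
        linarith))
      have hm0 : m ≠ 0 := by
        rintro rfl
        exact hz' (by rw [← hm]; rfl)
      have h3 := hnorm ρ (inv_ne_zero hB) h1
      have h4 := hX.eventually (blocked2 h τ hx0 h01 hm.symm hm0 hnz
        (e := x₀ / 2) (by linarith))
      set E := |Real.log ‖B⁻¹‖| + 1 with hE
      have h5 : ∀ᶠ n in atTop, |(WW (ca i α) τ (X n)).re + ρ * Real.log (D / Real.log (X n))| ≤ E := by
        have h8 := h3.abs
        exact h8.eventually (eventually_le_nhds (by rw [hE]; linarith))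
      -- `exp (X ^ (x₀ / 2))` beats the logarithm
      obtain ⟨e', -, hgap⟩ := exp_gap_log (C := |(ρ : ℝ)| * 2 + E + 1) (by positivity)
        (e := x₀ / 4) (x₀ := x₀ / 2) (by linarith) (by linarith)
      have hgap2 : ∀ᶠ X : ℝ in atTop, (|(ρ : ℝ)| * 2 + E + 1) * Real.log X < Real.exp (X ^ (x₀ / 2)) := by
        have h7 : (fun X : ℝ => (|(ρ : ℝ)| * 2 + E + 1) * Real.log X) =o[atTop]
            fun X => X ^ (x₀ / 2) :=
          (isLittleO_log_rpow_atTop (by linarith)).const_mul_left _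
        have h8 := h7.bound (show (0 : ℝ) < 1 by norm_num)
        filter_upwards [h8, eventually_gt_atTop 1] with X h9 hX
        have h10 : (0 : ℝ) ≤ X ^ (x₀ / 2) := Real.rpow_nonneg (by linarith) _
        rw [Real.norm_eq_abs, Real.norm_eq_abs, abs_of_nonneg h10, one_mul] at h9
        have := le_abs_self ((|(ρ : ℝ)| * 2 + E + 1) * Real.log X)
        have := Real.add_one_le_exp (X ^ (x₀ / 2))
        linarith
      obtain ⟨n, g1, g2, g3, g4, g5, g6⟩ := (h4.and (h5.and ((hX.eventually hgap2).and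
        ((hlX.eventually (eventually_ge_atTop 1)).and
        ((hlX.eventually (eventually_ge_atTop D)).and
        (hlX.eventually (eventually_ge_atTop (1 / D)))))))).exists
      set T := Real.log (X n) with hT
      have hT0 : 0 < T := by linarith
      have hs : |(Int.sign m : ℝ)| ≤ 1 := by
        rcases lt_trichotomy m 0 with h6 | h6 | h6
        · rw [Int.sign_eq_neg_one_of_neg h6]; norm_num
        · rw [h6]; simp
        · rw [Int.sign_eq_one_of_pos h6]; norm_num
      have g7 : Real.exp (X n ^ (x₀ / 2)) ≤ |(WW (ca i α) τ (X n)).re| := by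
        refine g1.trans ((le_abs_self _).trans ?_)
        rw [abs_mul]
        exact mul_le_of_le_one_left (abs_nonneg _) hs
      have g8 : |Real.log (D / T)| ≤ 2 * T := by
        have hlT : Real.log T ≤ T := (Real.log_le_sub_one_of_pos hT0).trans (by linarith)
        rw [Real.log_div hD0.ne' hT0.ne', abs_le]
        have hD1 : Real.log D ≤ D := (Real.log_le_sub_one_of_pos hD0).trans (by linarith)
        have hD2 : -Real.log D ≤ 1 / D := by
          have := Real.log_le_sub_one_of_pos (inv_pos.2 hD0)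
          rw [Real.log_inv] at this
          rw [one_div]
          linarith
        have hlT0 : 0 ≤ Real.log T := Real.log_nonneg g4
        constructor <;> linarith
      have g9 : |(WW (ca i α) τ (X n)).re| ≤ E + |(ρ : ℝ)| * (2 * T) := by
        have e1 : (WW (ca i α) τ (X n)).re = ((WW (ca i α) τ (X n)).re +
          ρ * Real.log (D / T)) + -(ρ * Real.log (D / T)) := by ring
        rw [e1]
        refine (abs_add_le _ _).trans (add_le_add g2 ?_)
        rw [abs_neg, abs_mul]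
        gcongr
      have g10 : E + |(ρ : ℝ)| * (2 * T) ≤ (|(ρ : ℝ)| * 2 + E + 1) * T := by
        have hE0 : 0 ≤ E := by rw [hE]; positivity
        nlinarith [abs_nonneg (ρ : ℝ)]
      linarith
  tfae_finish

end Pool.Agent.U745.LT
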