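import Pool.Agent.U745.LT.Fin

/-!
# Local factors of abelian varieties over the quadratic extensions of the residue fields
-/

set_option autoImplicit false

namespace Pool.Agent.U745.LT

open NumberField IsDedekindDomain Filter Topology Polynomial
open Pool.Agent.TH339.MP (nm two_le_nm)
open Pool.Agent.R409.RA

/-- the sum of the logarithms is real -/
lemma sum_log_real' {M : ℕ} {β : Fin M → ℂ} {q : ℝ} (hq : 0 < q) (hβ : ∀ j, ‖β j‖ < q)
    (hst : Finset.univ.val.map (fun j => (starRingEnd ℂ) (β j)) = Finset.univ.val.map β) :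
    (starRingEnd ℂ) (∑ j, Complex.log (1 - β j / q)) = ∑ j, Complex.log (1 - β j / q) := by
  have h1 : ∀ j, (starRingEnd ℂ) (Complex.log (1 - β j / q)) =
      Complex.log (1 - (starRingEnd ℂ) (β j) / q) := by
    intro j
    rw [← Complex.log_conj]
    · congr 1
      rw [map_sub, map_one, map_div₀, Complex.conj_ofReal]
    · intro harg
      have h2 : ‖-(β j / q)‖ < 1 := by
        rw [norm_neg, norm_div, Complex.norm_real, Real.norm_of_nonneg hq.le,
          div_lt_one hq]
        exact hβ j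
      have h3 := Complex.mem_slitPlane_of_norm_lt_one h2
      rw [← sub_eq_add_neg] at h3
      exact (Complex.mem_slitPlane_iff_arg.1 h3).1 harg
  rw [map_sum]
  simp_rw [h1]
  have h4 : ∀ γ : Fin M → ℂ, ∑ j, Complex.log (1 - γ j / q) =
      ((Finset.univ.val.map γ).map fun z => Complex.log (1 - z / q)).sum := by
    intro γ
    rw [Multiset.map_map]
    rfl
  rw [h4 β, h4 fun j => (starRingEnd ℂ) (β j), hst]

/-- the local identity at the central point -/
theorem log_points' {M : ℕ} {β : Fin M → ℂ} {q : ℝ} (hq : 1 < q) (hβ : ∀ j, ‖β j‖ = √q)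
    (hst : Finset.univ.val.map (fun j => (starRingEnd ℂ) (β j)) = Finset.univ.val.map β)
    {A : ℝ} (hA : 0 ≤ A) (hN : (A : ℂ) = ∏ j, (1 - β j)) :
    ((Real.log (A / √q ^ M) : ℝ) : ℂ) = ∑ j, Complex.log (1 - β j / q) := by
  have hq0 : (0 : ℝ) < q := by linarith
  have hsq0 : 0 < √q := Real.sqrt_pos.2 hq0
  have hsq : √q < q := by
    rw [Real.sqrt_lt' (by linarith)]
    nlinarith
  set Lg := ∑ j, Complex.log (1 - β j / q) with hLg
  have hreal : (Lg.re : ℂ) = Lg :=
    Complex.conj_eq_iff_re.1 (sum_log_real' hq0 (fun j => (hβ j).trans_lt hsq) hst)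
  have hne : ∀ j, 1 - β j / q ≠ 0 := by
    intro j h0
    have h1 : β j / q = 1 := (sub_eq_zero.1 h0).symm
    have h2 : ‖β j / q‖ = 1 := by rw [h1, norm_one]
    rw [norm_div, Complex.norm_real, Real.norm_of_nonneg hq0.le, hβ j, div_eq_one_iff_eq hq0.ne'] at h2
    linarith
  have hexp : Complex.exp Lg = ∏ j, (1 - β j / q) := by
    rw [hLg, Complex.exp_sum]
    exact Finset.prod_congr rfl fun j _ => Complex.exp_log (hne j)
  have hterm : ∀ j, ‖1 - β j / q‖ = ‖1 - β j‖ / √q := by
    intro j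
    have h1 : β j * (starRingEnd ℂ) (β j) = q := by
      rw [Complex.mul_conj, Complex.normSq_eq_norm_sq, hβ j, Real.sq_sqrt hq0.le]
    have h2 : ‖(starRingEnd ℂ) (β j)‖ = √q := by rw [RCLike.norm_conj, hβ j]
    have h3 : (1 - β j / q) * (starRingEnd ℂ) (β j) = -(starRingEnd ℂ) (1 - β j) := by
      have hqc : (q : ℂ) ≠ 0 := by exact_mod_cast hq0.ne'
      rw [map_sub, map_one, sub_mul, one_mul, div_mul_eq_mul_div, h1, div_self hqc]
      ring
    have h4 := congrArg norm h3
    rw [norm_mul, h2, norm_neg, RCLike.norm_conj] at h4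
    rw [← h4]
    field_simp
  have hnorm : ‖Complex.exp Lg‖ = A / √q ^ M := by
    rw [hexp, norm_prod]
    simp_rw [hterm]
    rw [Finset.prod_div_distrib, ← norm_prod, ← hN, Complex.norm_real, Real.norm_of_nonneg hA,
      Finset.prod_const, Finset.card_univ, Fintype.card_fin]
  rw [← hnorm, Complex.norm_exp, Real.log_exp, hreal]

lemma stable_sq {M : ℕ} {α : Fin M → ℂ}
    (hst : Finset.univ.val.map (fun j => (starRingEnd ℂ) (α j)) = Finset.univ.val.map α) :
    Finset.univ.val.map (fun j => (starRingEnd ℂ) (α j ^ 2)) =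
      Finset.univ.val.map (fun j => α j ^ 2) := by
  have h1 : Finset.univ.val.map (fun j => (starRingEnd ℂ) (α j ^ 2)) =
      (Finset.univ.val.map (fun j => (starRingEnd ℂ) (α j))).map (fun z => z ^ 2) := by
    rw [Multiset.map_map]
    refine Multiset.map_congr rfl fun j _ => ?_
    simp
  rw [h1, hst, Multiset.map_map]
  rfl

variable {K : Type} [Field K] [NumberField K] {N : ℕ}

/-- the series for the refined mean as one series -/
theorem cmean2_tsum {a : HeightOneSpectrum (𝓞 K) → Fin N → ℂ} (h : Cen a) (τ : ℝ) {T : ℝ}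
    (hT : 0 < T) :
    (Summable fun v : HeightOneSpectrum (𝓞 K) => ‖cv a v * wgt τ T v +
      1 / 2 * cv (sqa a) v * (wgt τ (T / 2) v - wgt τ T v)‖) ∧
    cmean2 a τ T = ∑' v : HeightOneSpectrum (𝓞 K), (cv a v * wgt τ T v +
      1 / 2 * cv (sqa a) v * (wgt τ (T / 2) v - wgt τ T v)) := by
  have s1 := (cmean_summable h τ hT).of_norm
  have s2 := (cmean_summable (cen_sqa h) τ hT).of_norm
  have s3 := (cmean_summable (cen_sqa h) τ (half_pos hT)).of_norm
  have s4 := s1.sub ((s2.mul_left (1 / 2)).sub (s3.mul_left (1 / 2)))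
  have e : ∀ v : HeightOneSpectrum (𝓞 K), cv a v * wgt τ T v - (1 / 2 * (cv (sqa a) v * wgt τ T v) -
      1 / 2 * (cv (sqa a) v * wgt τ (T / 2) v)) = cv a v * wgt τ T v +
      1 / 2 * cv (sqa a) v * (wgt τ (T / 2) v - wgt τ T v) := fun v => by ring
  constructor
  · exact (s4.congr fun v => e v).norm
  · unfold cmean2 cmean
    rw [← tsum_mul_left, ← tsum_mul_left, ← (s2.mul_left (1 / 2)).tsum_sub (s3.mul_left (1 / 2)),
      ← s1.tsum_sub ((s2.mul_left (1 / 2)).sub (s3.mul_left (1 / 2)))]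
    exact tsum_congr e

end Pool.Agent.U745.LT
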