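import Pool.Agent.U745.LT.Cor

/-!
# The leading coefficient at the central point
-/

set_option autoImplicit false

namespace Pool.Agent.U745.LT

open NumberField IsDedekindDomain Filter Topology MeasureTheory
open Pool.Agent.TH339.MP (nm two_le_nm)
open Pool.Agent.W524.RY (dir dir_re dir_im dir_ne dir_mul_re dir_mul_real_re inv_gamma_le J_cexp)
open Pool.Agent.W189.ML (HS J J_hasSum J_const_mul Adm J_sub grow)
open Pool.Agent.W189.LC (kap J_log_eq)
open Pool.Agent.R409.RA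

variable {K : Type} [Field K] [NumberField K] {N i : ℕ}
  {α : HeightOneSpectrum (𝓞 K) → Fin N → ℂ} {F : ℂ → ℂ}

lemma MM_cont {a : HeightOneSpectrum (𝓞 K) → Fin N → ℂ} (h : Cen a) :
    ContinuousOn (MM a) {w | 1 ≤ w.re} := by
  unfold MM
  refine (SS_cont h).sub ((continuousOn_const.mul (SS_cont (cen_sqa h))).sub
    (continuousOn_const.mul ((SS_cont (cen_sqa h)).comp (by fun_prop) fun w hw => ?_)))
  have hw' : 1 ≤ w.re := hw
  show 1 ≤ (2 * w).re
  rw [Complex.mul_re, Complex.re_ofNat, Complex.im_ofNat, zero_mul, sub_zero]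
  linarith

lemma MM_le {a : HeightOneSpectrum (𝓞 K) → Fin N → ℂ} (h : Cen a) {w : ℂ} (hw : 1 ≤ w.re) :
    ‖MM a w‖ ≤ 2 * ∑' v : HeightOneSpectrum (𝓞 K), 4 * N * (nm v : ℝ) ^ (-(3 / 2) : ℝ) := by
  have hw2 : 1 ≤ (2 * w).re := by
    rw [Complex.mul_re, Complex.re_ofNat, Complex.im_ofNat, zero_mul, sub_zero]
    linarith
  have h1 := SS_le h hw
  have h2 := SS_le (cen_sqa h) hw
  have h3 := SS_le (cen_sqa h) hw2
  have h6 : ‖(1 / 2 : ℂ)‖ = 1 / 2 := by norm_num
  unfold MM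
  refine (norm_sub_le _ _).trans ?_
  have h4 : ‖1 / 2 * SS (sqa a) w - 1 / 2 * SS (sqa a) (2 * w)‖ ≤
      1 / 2 * ‖SS (sqa a) w‖ + 1 / 2 * ‖SS (sqa a) (2 * w)‖ := by
    refine (norm_sub_le _ _).trans (le_of_eq ?_)
    rw [norm_mul, norm_mul, h6]
  linarith

/-- **The refined asymptotic formula for the mean**, abstract form. -/
theorem cmean2_abs
    (h : ∀ v j, ‖α v j‖ ≤ (Ideal.absNorm v.asIdeal : ℝ) ^ ((i : ℝ) / 2)) (τ : ℝ) (m : ℤ) {Q : ℂ → ℂ}
    (hQ : ∀ x ∈ Set.Icc (0 : ℝ) 3, AnalyticAt ℂ Q (x : ℂ))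
    (hQ0 : ∀ x ∈ Set.Icc (0 : ℝ) 3, Q (x : ℂ) ≠ 0)
    (hΦ : ∀ᶠ w in 𝓝 (3 : ℂ), Pool.Agent.R409.EV.LProd α (((i : ℂ) + 1) / 2 + dir τ * w) =
      w ^ m * Q w) :
    ∃ q0 : ℂ, Complex.exp q0 = Q 0 ∧ ∃ C T₀ : ℝ, 0 ≤ C ∧ 1 ≤ T₀ ∧ ∀ T ≥ T₀,
      ‖cmean2 (ca i α) τ T - (m * (Real.log T - (kap : ℝ)) - q0)‖ ≤ C / T := by
  have hc := cen_ca h
  set κ : ℝ := 1 / (2 * (1 + |τ|)) with hκ
  have hτ0 := abs_nonneg τ
  have hκ0 : 0 < κ := by positivity
  have hκτ : |τ| * κ ≤ 1 / 2 := by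
    rw [hκ, mul_one_div, div_le_iff₀ (by positivity)]
    linarith
  obtain ⟨CG, hCG0, hCG⟩ := DD_lin hc
  -- the geometry of the sector
  have hsec : ∀ ζ : ℂ, 0 < ζ.re → |ζ.im| ≤ κ * ζ.re → 0 < (dir τ * ζ).re := by
    intro ζ hζ hζi
    have e1 : τ * ζ.im ≤ 1 / 2 * ζ.re := by
      calc τ * ζ.im ≤ |τ| * |ζ.im| := by rw [← abs_mul]; exact le_abs_self _
        _ ≤ |τ| * (κ * ζ.re) := mul_le_mul_of_nonneg_left hζi hτ0
        _ = (|τ| * κ) * ζ.re := by ring
        _ ≤ 1 / 2 * ζ.re := mul_le_mul_of_nonneg_right hκτ hζ.le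
    rw [dir_mul_re]; linarith
  have hstrip : ∀ ζ : ℂ, 3 ≤ ζ.re → |ζ.im| ≤ κ → 1 ≤ (dir τ * ζ).re := by
    intro ζ hζ hζi
    rw [dir_mul_re]
    have : τ * ζ.im ≤ 1 / 2 := by
      calc τ * ζ.im ≤ |τ| * |ζ.im| := by rw [← abs_mul]; exact le_abs_self _
        _ ≤ |τ| * κ := mul_le_mul_of_nonneg_left hζi hτ0
        _ ≤ 1 / 2 := hκτ
    linarith
  have hdir3 : (dir τ * 3).re = 3 := by
    simp
  have hscont : ContinuousOn (fun ζ => MM (ca i α) (dir τ * ζ)) {ζ | 3 ≤ ζ.re ∧ |ζ.im| ≤ κ} :=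
    (MM_cont hc).comp (by fun_prop) fun ζ hζ => hstrip ζ hζ.1 hζ.2
  have hscont3 : ContinuousAt (fun ζ => MM (ca i α) (dir τ * ζ)) 3 := by
    have h5 : ContinuousAt (MM (ca i α)) (dir τ * 3) := by
      refine (MM_cont hc).continuousAt ?_
      have h6 : {w : ℂ | 1 < w.re} ∈ 𝓝 (dir τ * 3) := by
        refine (isOpen_lt continuous_const Complex.continuous_re).mem_nhds ?_
        show (1 : ℝ) < (dir τ * 3).re
        rw [hdir3]
        norm_num
      filter_upwards [h6] with w hw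
      exact le_of_lt hw
    exact ContinuousAt.comp (g := MM (ca i α)) (f := fun ζ : ℂ => dir τ * ζ) h5 (by fun_prop)
  obtain ⟨q0, hq0, C, T₀, hC0, hT₀, hC⟩ := refined_abs (S := fun ζ => MM (ca i α) (dir τ * ζ))
    (G := fun ζ => DD (ca i α) (dir τ * ζ)) (Q := Q) (κ := κ) (CG := CG * ‖dir τ‖)
    (CS := 2 * ∑' v : HeightOneSpectrum (𝓞 K), 4 * N * (nm v : ℝ) ^ (-(3 / 2) : ℝ))
    hκ0 m
    (fun ζ h2 h3 => DifferentiableAt.comp (g := DD (ca i α)) (f := fun ζ : ℂ => dir τ * ζ) ζ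
      (DD_differentiable hc (hsec ζ h2 h3)) (by fun_prop))
    (fun ζ h2 h3 => by
      have := hCG _ (hsec ζ h2 h3).le
      rw [norm_mul, ← mul_assoc] at this
      exact this)
    hscont (fun ζ h2 h3 => MM_le hc (hstrip ζ h2 h3)) hscont3 hQ hQ0 (by
      have e1 : {w : ℂ | 1 / 2 < (dir τ * w).re} ∈ 𝓝 (3 : ℂ) := by
        refine (isOpen_lt continuous_const (Complex.continuous_re.comp (by fun_prop))).mem_nhds ?_
        show (1 / 2 : ℝ) < (dir τ * 3).re
        rw [hdir3]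
        norm_num
      filter_upwards [e1, hΦ] with w hw hw2
      rw [DD_eq hc hw, exp_eq h hw, hw2])
  refine ⟨q0, hq0, C, max T₀ (max 1 (Real.pi * |τ|)), hC0,
    (le_max_left _ _).trans (le_max_right _ _), fun T hT => ?_⟩
  have hT1 : 1 ≤ T := ((le_max_left _ _).trans (le_max_right _ _)).trans hT
  have hTτ : Real.pi * |τ| ≤ T := ((le_max_right _ _).trans (le_max_right _ _)).trans hT
  have h3 := hC T ((le_max_left _ _).trans hT)
  rw [cmean2_eq hc τ hT1 hTτ, J_log_eq] at h3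
  exact h3

/-- **The refined asymptotic formula for the mean**: `ℓ` is the leading coefficient. -/
theorem cmean2_asymp (h : Cont i α F) (τ : ℝ) {m : ℤ}
    (hm : meromorphicOrderAt F (((i : ℂ) + 1) / 2) = m)
    (hnz : ∀ x : ℝ, 0 < x → meromorphicOrderAt F (rp i τ x) = 0) :
    ∃ q0 : ℂ, Complex.exp q0 = dir τ ^ m * meromorphicTrailingCoeffAt F (((i : ℂ) + 1) / 2) ∧
      ∃ C T₀ : ℝ, 0 ≤ C ∧ 1 ≤ T₀ ∧ ∀ T ≥ T₀,
      ‖cmean2 (ca i α) τ T - (m * (Real.log T - (kap : ℝ)) - q0)‖ ≤ C / T := by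
  set L : ℂ → ℂ := fun w => ((i : ℂ) + 1) / 2 + dir τ * w with hL
  have hLan : ∀ w, AnalyticAt ℂ L w := fun w => by
    rw [hL]
    fun_prop
  have hLd : ∀ w, deriv L w ≠ 0 := by
    intro w
    have : HasDerivAt L (dir τ) w := by
      have := ((hasDerivAt_id w).const_mul (dir τ)).const_add (((i : ℂ) + 1) / 2)
      simpa [hL] using this
    rw [this.deriv]
    exact dir_ne τ
  have hLr : ∀ x : ℝ, L x = rp i τ x := fun x => rfl
  have hL0 : L 0 = ((i : ℂ) + 1) / 2 := by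
    rw [hL]
    simp
  set P : ℂ → ℂ := F ∘ L with hP
  have hPord : ∀ w, meromorphicOrderAt P w = meromorphicOrderAt F (L w) := fun w =>
    meromorphicOrderAt_comp_of_deriv_ne_zero (hLan w) (hLd w)
  have hPmer : ∀ x : ℝ, 0 ≤ x → MeromorphicAt P x := by
    intro x hx
    rw [hP, meromorphicAt_comp_iff_of_deriv_ne_zero (hLan _) (hLd _), hLr]
    apply h.mer
    rw [rp_re]
    linarith
  set R : ℂ → ℂ := fun w => w ^ (-m) * P w with hR
  -- the order of `R`
  have hRmer : ∀ x : ℝ, 0 ≤ x → MeromorphicAt R x := by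
    intro x hx
    rw [hR]
    have h2 : MeromorphicAt (fun w : ℂ => w ^ (-m)) x :=
      MeromorphicAt.fun_zpow (by fun_prop) _
    exact h2.fun_mul (hPmer x hx)
  have hR0 : meromorphicOrderAt R ((0 : ℝ) : ℂ) = 0 := by
    obtain ⟨g, hg, hg0, he⟩ := (meromorphicOrderAt_eq_int_iff (hPmer 0 le_rfl)).1
      (by rw [hPord, Complex.ofReal_zero, hL0, hm])
    have h2 := (meromorphicOrderAt_eq_int_iff (n := 0) (hRmer 0 le_rfl)).2 ⟨g, hg, hg0, by
      filter_upwards [he, self_mem_nhdsWithin] with w hw hw2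
      have hw3 : w ≠ 0 := by simpa using hw2
      rw [hR]
      simp only
      rw [hw, zpow_zero, one_smul, smul_eq_mul, Complex.ofReal_zero, sub_zero, ← mul_assoc,
        ← zpow_add₀ hw3, neg_add_cancel, zpow_zero, one_mul]⟩
    exact_mod_cast h2
  have hRx : ∀ x : ℝ, 0 < x → meromorphicOrderAt F (rp i τ x) = 0 →
      meromorphicOrderAt R (x : ℂ) = 0 := by
    intro x hx hF
    obtain ⟨g, hg, hg0, he⟩ := (meromorphicOrderAt_eq_int_iff (n := 0) (hPmer x hx.le)).1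
      (by rw [hPord, hLr, hF]; rfl)
    have hne : (x : ℂ) ≠ 0 := by exact_mod_cast hx.ne'
    have h2 := (meromorphicOrderAt_eq_int_iff (n := 0) (hRmer x hx.le)).2
      ⟨fun w => w ^ (-m) * g w, by
        refine AnalyticAt.fun_mul ?_ hg
        exact AnalyticAt.fun_zpow (by fun_prop) hne, by
        simp only
        exact mul_ne_zero (zpow_ne_zero _ hne) hg0, by
        filter_upwards [he] with w hw
        rw [hR]
        simp only
        rw [hw, zpow_zero, one_smul, one_smul]⟩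
    exact_mod_cast h2
  have hord : ∀ x ∈ Set.Icc (0 : ℝ) 3, meromorphicOrderAt R (x : ℂ) = 0 := by
    intro x hx
    rcases hx.1.lt_or_eq with h2 | h2
    · exact hRx x h2 (hnz x h2)
    · rw [← h2]
      exact hR0
  -- the value at `0`
  have hval : nfm R 0 = dir τ ^ m * meromorphicTrailingCoeffAt F (((i : ℂ) + 1) / 2) := by
    have hmer0 := hRmer 0 le_rfl
    rw [Complex.ofReal_zero] at hmer0
    have h0' := hord 0 ⟨le_rfl, by norm_num⟩
    rw [Complex.ofReal_zero] at h0'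
    have hc : ContinuousAt (nfm R) 0 := (nfm_analytic hmer0 h0').1.continuousAt
    have e1 : nfm R =ᶠ[𝓝[≠] 0] R := by
      have h1 := (nfm_eq hmer0).filter_mono (nhdsWithin_le_nhds (s := {0}ᶜ))
      refine h1.trans ?_
      filter_upwards [self_mem_nhdsWithin] with w hw
      exact (hmer0.eqOn_compl_singleton_toMeromorphicNFAt hw).symm
    have t1 : Tendsto R (𝓝[≠] 0) (𝓝 (nfm R 0)) :=
      (hc.tendsto.mono_left nhdsWithin_le_nhds).congr' e1
    have hmF : MeromorphicAt F (((i : ℂ) + 1) / 2) := h.mer _ (by rw [re_half])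
    have t2 := hmF.tendsto_nhds_meromorphicTrailingCoeffAt
    have h2 : (meromorphicOrderAt F (((i : ℂ) + 1) / 2)).untop₀ = m := by rw [hm]; rfl
    rw [h2] at t2
    have t3 : Tendsto L (𝓝[≠] 0) (𝓝[≠] (((i : ℂ) + 1) / 2)) := by
      refine tendsto_nhdsWithin_of_tendsto_nhds_of_eventually_within _ ?_ ?_
      · have := (hLan 0).continuousAt.tendsto
        rw [hL0] at this
        exact this.mono_left nhdsWithin_le_nhds
      · filter_upwards [self_mem_nhdsWithin] with w hw hw2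
        have hw3 : w ≠ 0 := by simpa using hw
        apply hw3
        have e : ((i : ℂ) + 1) / 2 + dir τ * w = ((i : ℂ) + 1) / 2 := hw2
        have e' : dir τ * w = 0 := by linear_combination e
        exact (mul_eq_zero.1 e').resolve_left (dir_ne τ)
    have t4 := (t2.comp t3).const_mul (dir τ ^ m)
    refine tendsto_nhds_unique t1 (t4.congr' ?_)
    filter_upwards [self_mem_nhdsWithin] with w hw
    have hw3 : w ≠ 0 := by simpa using hw
    rw [hR, hP, hL]
    simp only [Function.comp_apply, Pi.mul_apply, Pi.pow_apply, Pi.smul_apply, smul_eq_mul,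
      add_sub_cancel_left]
    first
    | (rw [mul_zpow, ← mul_assoc, ← mul_assoc, ← zpow_add₀ (dir_ne τ), add_neg_cancel, zpow_zero,
        one_mul])
    | (simp [mul_zpow, ← mul_assoc, ← zpow_add₀ (dir_ne τ)])
  obtain ⟨q0, hq0, hC⟩ := cmean2_abs h.temp τ m (Q := nfm R)
    (fun x hx => (nfm_analytic (hRmer x hx.1) (hord x hx)).1)
    (fun x hx => (nfm_analytic (hRmer x hx.1) (hord x hx)).2) (by
      have h3x : (3 : ℂ) ≠ 0 := by norm_num
      have hre3 : (i : ℝ) / 2 + 1 < (L 3).re := by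
        have h2 := hLr 3
        have h3 : ((3 : ℝ) : ℂ) = 3 := by norm_num
        rw [h3] at h2
        rw [h2, rp_re]
        linarith
      have ho : IsOpen {z : ℂ | (i : ℝ) / 2 + 1 < z.re} :=
        isOpen_lt continuous_const Complex.continuous_re
      have hLc : ContinuousAt L 3 := (hLan 3).continuousAt
      have hP3 : AnalyticAt ℂ P 3 := AnalyticAt.comp (g := F) (f := L) (h.analytic hre3).1 (hLan 3)
      have hR3 : AnalyticAt ℂ R 3 := by
        rw [hR]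
        refine AnalyticAt.fun_mul ?_ hP3
        exact AnalyticAt.fun_zpow (by fun_prop) h3x
      filter_upwards [nfm_self hR3, isOpen_ne.mem_nhds h3x, hLc.eventually (ho.mem_nhds hre3)]
        with w hw hw2 hw3
      rw [hw, hR]
      simp only
      rw [← mul_assoc, ← zpow_add₀ hw2, add_neg_cancel, zpow_zero, one_mul]
      exact (h.eq _ hw3).symm)
  exact ⟨q0, hq0.trans hval, hC⟩

end Pool.Agent.U745.LT
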